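import Pool.Agent.Work.MP_adbfe6_an.Torus2

/-!
# MP_adbfe6_an: domination gives holonomies in the structure group
-/

open MeasureTheory Filter Topology

namespace PSG

section Product

variable {R Z : Type*} [NormedRing R] [CompleteSpace R] [TopologicalSpace Z]

theorem exists_limit (h : ℕ → Z → R) (hc : ∀ n, Continuous (h n)) (h0 : ∀ z, h 0 z = 1)
    (B : Z → ℝ) (cB : Continuous B) (hB : ∀ z, 0 ≤ B z) {q : ℝ} (hq0 : 0 ≤ q) (hq : q < 1)
    (hh : ∀ n z, ‖h (n + 1) z - h n z‖ ≤ ‖h n z‖ * (B z * q ^ n)) :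
    ∃ H : Z → R, Continuous H ∧ ∀ z, Tendsto (fun n => h n z) atTop (𝓝 (H z)) := by
  have hs : ∀ n : ℕ, ∑ k ∈ Finset.range n, q ^ k ≤ (1 - q)⁻¹ := by
    intro n
    rw [← tsum_geometric_of_lt_one hq0 hq]
    exact (summable_geometric_of_lt_one hq0 hq).sum_le_tsum _ fun i _ => by positivity
  have hn : ∀ n z, ‖h n z‖ ≤ ‖(1 : R)‖ * Real.exp (B z * ∑ k ∈ Finset.range n, q ^ k) := by
    intro n z
    induction n with
    | zero => simp [h0]
    | succ n ih =>
      have h1 : ‖h (n + 1) z‖ ≤ ‖h n z‖ * (1 + B z * q ^ n) := by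
        have h2 : h (n + 1) z = h n z + (h (n + 1) z - h n z) := by abel
        rw [h2]
        refine (norm_add_le _ _).trans ?_
        have := hh n z
        linarith
      have h3 : 1 + B z * q ^ n ≤ Real.exp (B z * q ^ n) := by
        have := Real.add_one_le_exp (B z * q ^ n)
        linarith
      rw [Finset.sum_range_succ, mul_add, Real.exp_add, ← mul_assoc]
      refine h1.trans ?_
      have h4 : 0 ≤ 1 + B z * q ^ n := by
        have := hB z
        positivity
      exact mul_le_mul ih h3 h4 (by positivity)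
  set D : Z → ℝ := fun z => ‖(1 : R)‖ * Real.exp (B z * (1 - q)⁻¹) with hD
  have cD : Continuous D := by
    rw [hD]
    fun_prop
  have hn' : ∀ n z, ‖h n z‖ ≤ D z := by
    intro n z
    refine (hn n z).trans ?_
    exact mul_le_mul_of_nonneg_left
      (Real.exp_le_exp.2 (mul_le_mul_of_nonneg_left (hs n) (hB z))) (norm_nonneg _)
  have hd : ∀ z n, dist (h n z) (h (n + 1) z) ≤ (D z * B z) * q ^ n := by
    intro z n
    rw [dist_comm, dist_eq_norm]
    refine (hh n z).trans ?_
    rw [mul_assoc]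
    have := hn' n z
    have h5 : 0 ≤ B z * q ^ n := by
      have := hB z
      positivity
    gcongr
  have hcau : ∀ z, CauchySeq fun n => h n z := fun z => cauchySeq_of_le_geometric q (D z * B z) hq (hd z)
  choose H hH using fun z => cauchySeq_tendsto_of_complete (hcau z)
  refine ⟨H, ?_, hH⟩
  have hlu : TendstoLocallyUniformly h H atTop := by
    rw [Metric.tendstoLocallyUniformly_iff]
    intro ε hε z₀
    obtain ⟨b, hb⟩ : ∃ b : ℝ, D z₀ * B z₀ < b := ⟨_, lt_add_one _⟩
    have hnb : ∀ᶠ z in 𝓝 z₀, D z * B z < b := (cD.mul cB).continuousAt.eventually (gt_mem_nhds hb) |>.mono fun _ h => h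
    refine ⟨{z | D z * B z < b}, hnb, ?_⟩
    have h6 : Tendsto (fun n : ℕ => b * q ^ n / (1 - q)) atTop (𝓝 0) := by
      have h7 := (tendsto_pow_atTop_nhds_zero_of_lt_one hq0 hq).const_mul b
      have h8 := h7.div_const (1 - q)
      simpa using h8
    filter_upwards [h6.eventually (gt_mem_nhds hε)] with n hn9 z hz
    have h10 := dist_le_of_le_geometric_of_tendsto q (D z * B z) hq (hd z) (hH z) n
    rw [dist_comm]
    refine h10.trans_lt (lt_of_le_of_lt ?_ hn9)
    have h11 : 0 < 1 - q := by linarith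
    have hz' : D z * B z < b := hz
    gcongr
  exact hlu.continuous (Frequently.of_forall hc)

end Product

section Dom

variable {R : Type*} [NormedRing R] [CompleteSpace R] {G : Subgroup Rˣ}

/-- the norm of a group element -/
noncomputable def gn (g : G) : ℝ := ‖((g : Rˣ) : R)‖

theorem gn_nonneg (g : G) : 0 ≤ gn g := norm_nonneg _

theorem gn_mul (g g' : G) : gn (g * g') ≤ gn g * gn g' := norm_mul_le _ _

variable {X E : Type*} [SeminormedAddCommGroup X] [NormedAddCommGroup E]

theorem continuous_cyc {A : X → X} (cA : Continuous A) {φ : X → G} (cφ : Continuous φ) (n : ℕ) :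
    Continuous (cyc A φ n) := by
  induction n with
  | zero => exact continuous_const
  | succ n ih => exact (ih.comp cA).mul cφ

theorem cyc_succ' (A : X → X) (φ : X → G) (n : ℕ) (x : X) :
    cyc A φ (n + 1) x = φ (A^[n] x) * cyc A φ n x := by
  induction n generalizing x with
  | zero => simp [cyc]
  | succ n ih =>
    have h1 : cyc A φ (n + 1 + 1) x = cyc A φ (n + 1) (A x) * φ x := rfl
    rw [h1, ih, mul_assoc, Function.iterate_succ_apply]
    rfl

/-- **domination implies that the holonomies exist in the structure group** -/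
theorem exists_hol (hG : IsClosed (G : Set Rˣ)) {A : X → X} (cA : Continuous A) (p : E →+ X)
    (hp : ∀ v, ‖p v‖ ≤ ‖v‖) {L : E → E} (hA : ∀ x v, A (x + p v) = A x + p (L v))
    {φ : X → G} (cφ : Continuous φ) {K K' : ℝ} (hK : 0 ≤ K)
    (hφ : ∀ x y, ‖((φ x : Rˣ) : R) - ((φ y : Rˣ) : R)‖ ≤ K * ‖x - y‖)
    (hφ' : ∀ x, gn (φ x)⁻¹ ≤ K') {C q : ℝ} (hC : 0 ≤ C) (hq0 : 0 ≤ q) (hq : q < 1)
    (hdom : ∀ n x v, gn (cyc A φ n x) * gn (cyc A φ n x)⁻¹ * ‖L^[n] v‖ ≤ C * q ^ n * ‖v‖) :
    ∃ H, IsHol A φ p H := by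
  have hK' : 0 ≤ K' := (gn_nonneg _).trans (hφ' 0)
  have cp : Continuous p := by
    refine continuous_of_continuousAt_zero p ?_
    rw [ContinuousAt, map_zero]
    refine squeeze_zero_norm hp ?_
    have := (continuous_norm (E := E)).tendsto 0
    rwa [norm_zero] at this
  have hAn : ∀ n x v, A^[n] (x + p v) = A^[n] x + p (L^[n] v) := by
    intro n
    induction n with
    | zero => intro x v; rfl
    | succ n ih =>
      intro x v
      rw [Function.iterate_succ_apply', ih, hA, Function.iterate_succ_apply', Function.iterate_succ_apply']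
  let hh : ℕ → X × E → G := fun n z => (cyc A φ n (z.1 + p z.2))⁻¹ * cyc A φ n z.1
  have chh : ∀ n, Continuous (hh n) := fun n =>
    (((continuous_cyc cA cφ n).comp (continuous_fst.add (cp.comp continuous_snd))).inv).mul
      ((continuous_cyc cA cφ n).comp continuous_fst)
  have cval : Continuous fun g : G => ((g : Rˣ) : R) := Units.continuous_val.comp continuous_subtype_val
  obtain ⟨H, cH, hH⟩ := exists_limit (Z := X × E) (R := R) (fun n z => ((hh n z : Rˣ) : R))
    (fun n => cval.comp (chh n))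
    (by intro z; simp [hh, cyc]) (fun z => K' * K * C * ‖z.2‖) (by fun_prop)
    (by intro z; positivity) hq0 hq (by
      intro n z
      obtain ⟨x, v⟩ := z
      have h1 : hh (n + 1) (x, v) = hh n (x, v) * ((cyc A φ n x)⁻¹ *
          ((φ (A^[n] (x + p v)))⁻¹ * φ (A^[n] x)) * cyc A φ n x) := by
        simp only [hh, cyc_succ']
        group
      set g := cyc A φ n x with hg
      set a := φ (A^[n] (x + p v)) with ha
      set b := φ (A^[n] x) with hb
      set k := hh n (x, v) with hk
      have h2 : ((hh (n + 1) (x, v) : Rˣ) : R) - ((k : Rˣ) : R) =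
          ((k : Rˣ) : R) * ((((g⁻¹ : G) : Rˣ) : R) * ((((a⁻¹ : G) : Rˣ) : R) *
            (((b : Rˣ) : R) - ((a : Rˣ) : R))) * ((g : Rˣ) : R)) := by
        have e1 : (((a⁻¹ : G) : Rˣ) : R) * ((a : Rˣ) : R) = 1 := by
          rw [Subgroup.coe_inv]
          exact Units.inv_mul _
        have e2 : (((g⁻¹ : G) : Rˣ) : R) * ((g : Rˣ) : R) = 1 := by
          rw [Subgroup.coe_inv]
          exact Units.inv_mul _
        rw [h1]
        simp only [Subgroup.coe_mul, Units.val_mul]
        rw [mul_sub, e1, mul_sub, sub_mul, mul_one, e2, mul_sub, mul_one]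
      show ‖((hh (n + 1) (x, v) : Rˣ) : R) - ((k : Rˣ) : R)‖ ≤ ‖((k : Rˣ) : R)‖ * (K' * K * C * ‖v‖ * q ^ n)
      rw [h2]
      refine (norm_mul_le _ _).trans ?_
      refine mul_le_mul_of_nonneg_left ?_ (norm_nonneg _)
      have h3 : ‖((b : Rˣ) : R) - ((a : Rˣ) : R)‖ ≤ K * ‖L^[n] v‖ := by
        refine (hφ _ _).trans ?_
        refine mul_le_mul_of_nonneg_left ?_ hK
        rw [hAn, sub_add_cancel_left, norm_neg]
        exact hp _
      have h4 : gn a⁻¹ ≤ K' := hφ' _
      have h5 := hdom n x v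
      rw [← hg] at h5
      calc ‖(((g⁻¹ : G) : Rˣ) : R) * ((((a⁻¹ : G) : Rˣ) : R) * (((b : Rˣ) : R) - ((a : Rˣ) : R))) * ((g : Rˣ) : R)‖
          ≤ gn g⁻¹ * (gn a⁻¹ * ‖((b : Rˣ) : R) - ((a : Rˣ) : R)‖) * gn g := by
            refine (norm_mul_le _ _).trans ?_
            refine mul_le_mul_of_nonneg_right ?_ (gn_nonneg g)
            refine (norm_mul_le _ _).trans ?_
            exact mul_le_mul_of_nonneg_left (norm_mul_le _ _) (gn_nonneg _)
        _ ≤ gn g⁻¹ * (K' * (K * ‖L^[n] v‖)) * gn g := by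
            have := gn_nonneg g
            have := gn_nonneg g⁻¹
            gcongr
        _ = K' * K * (gn g * gn g⁻¹ * ‖L^[n] v‖) := by ring
        _ ≤ K' * K * (C * q ^ n * ‖v‖) := by gcongr
        _ = K' * K * C * ‖v‖ * q ^ n := by ring)
  -- the reversed holonomy
  let s : X × E → X × E := fun z => (z.1 + p z.2, -z.2)
  have cs : Continuous s := (continuous_fst.add (cp.comp continuous_snd)).prodMk continuous_snd.neg
  have hinv : ∀ n z, hh n (s z) = (hh n z)⁻¹ := by
    intro n z
    simp only [hh, s, map_neg, add_neg_cancel_right, mul_inv_rev, inv_inv]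
  have hinvT : ∀ z, Tendsto (fun n => ((((hh n z)⁻¹ : G) : Rˣ) : R)) atTop (𝓝 (H (s z))) := by
    intro z
    refine (hH (s z)).congr fun n => ?_
    rw [hinv]
  have m1 : ∀ z, H z * H (s z) = 1 := by
    intro z
    refine tendsto_nhds_unique ((hH z).mul (hinvT z)) (tendsto_const_nhds.congr fun n => ?_)
    rw [Subgroup.coe_inv]
    exact (Units.mul_inv _).symm
  have m2 : ∀ z, H (s z) * H z = 1 := by
    intro z
    refine tendsto_nhds_unique ((hinvT z).mul (hH z)) (tendsto_const_nhds.congr fun n => ?_)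
    rw [Subgroup.coe_inv]
    exact (Units.inv_mul _).symm
  let Hu : X × E → Rˣ := fun z => ⟨H z, H (s z), m1 z, m2 z⟩
  have cHu : Continuous Hu := Units.isOpenEmbedding_val.isEmbedding.continuous_iff.2 cH
  have tHu : ∀ z, Tendsto (fun n => ((hh n z : G) : Rˣ)) atTop (𝓝 (Hu z)) := fun z =>
    Units.isOpenEmbedding_val.isEmbedding.tendsto_nhds_iff.2 (hH z)
  have hGu : ∀ z, Hu z ∈ G := fun z => hG.mem_of_tendsto (tHu z) (Eventually.of_forall fun n => (hh n z).2)
  refine ⟨fun x v => ⟨Hu (x, v), hGu (x, v)⟩, ?_, ?_⟩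
  · exact Continuous.subtype_mk cHu _
  · intro x v
    rw [tendsto_subtype_rng]
    exact tHu (x, v)

end Dom

end PSG
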