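import Pool.Agent.Work.MP_adbfe6_an.Dom

/-!
# MP_adbfe6_an: dominated skew products with linear structure group
-/

open MeasureTheory Filter Topology

namespace PSG

variable {d : ℕ}

theorem norm_torMap_le (M : Matrix (Fin d) (Fin d) ℤ) :
    ∃ c : ℝ, 0 ≤ c ∧ ∀ x : Tor d, ‖torMap M x‖ ≤ c * ‖x‖ := by
  refine ⟨∑ i, ∑ j, ‖M i j‖, by positivity, fun x => ?_⟩
  rw [pi_norm_le_iff_of_nonneg (by positivity)]
  intro i
  calc ‖∑ j, M i j • x j‖ ≤ ∑ j, ‖M i j • x j‖ := norm_sum_le _ _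
    _ ≤ ∑ j, ‖M i j‖ * ‖x‖ := by
        refine Finset.sum_le_sum fun j _ => ?_
        refine (norm_zsmul_le (M i j) (x j)).trans ?_
        exact mul_le_mul_of_nonneg_left (norm_le_pi_norm x j) (norm_nonneg _)
    _ = (∑ j, ‖M i j‖) * ‖x‖ := by rw [Finset.sum_mul]
    _ ≤ (∑ i, ∑ j, ‖M i j‖) * ‖x‖ := by
        refine mul_le_mul_of_nonneg_right ?_ (norm_nonneg _)
        exact Finset.single_le_sum (f := fun i => ∑ j, ‖M i j‖) (fun i _ => by positivity) (Finset.mem_univ i)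

theorem quotient_norm_aux (t : ℝ) : ‖(t : UnitAddCircle)‖ ≤ ‖t‖ :=
  QuotientAddGroup.norm_mk_le_norm

theorem norm_torPr_le (v : Fin d → ℝ) : ‖torPr d v‖ ≤ ‖v‖ := by
  rw [pi_norm_le_iff_of_nonneg (norm_nonneg _)]
  intro i
  refine le_trans ?_ (norm_le_pi_norm v i)
  exact quotient_norm_aux (v i)

theorem norm_stabPr_le (M : Matrix (Fin d) (Fin d) ℤ) (v : stab M) : ‖stabPr M v‖ ≤ ‖v‖ :=
  norm_torPr_le _

section Linear

variable {R : Type*} [NormedRing R] {G : Subgroup Rˣ}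

/-- `φ : 𝕋^d → G` is Lipschitz -/
def LipCocycle (φ : Tor d → G) : Prop :=
  ∃ K : ℝ, ∀ x y : Tor d, ‖((φ x : Rˣ) : R) - ((φ y : Rˣ) : R)‖ ≤ K * ‖x - y‖

/-- the condition number `‖φⁿ(x)‖ ‖φⁿ(x)⁻¹‖` -/
noncomputable def condNr (M : Matrix (Fin d) (Fin d) ℤ) (φ : Tor d → G) (n : ℕ) (x : Tor d) : ℝ :=
  gn (cyc (torMap M) φ n x) * gn (cyc (torMap M) φ n x)⁻¹

/-- `κ` times the contraction of `Mⁿ` on its stable space is at most `C qⁿ` -/
def DomBy (M : Matrix (Fin d) (Fin d) ℤ) (C q κ : ℝ) (n : ℕ) : Prop :=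
  ∀ v ∈ stab M, κ * ‖(linMap M)^[n] v‖ ≤ C * q ^ n * ‖v‖

/-- the action of the cocycle by conjugation is dominated by the base -/
def Dominated (M M' : Matrix (Fin d) (Fin d) ℤ) (φ : Tor d → G) : Prop :=
  ∃ C q : ℝ, 0 ≤ q ∧ q < 1 ∧ ∀ (n : ℕ) (x : Tor d),
    DomBy M C q (condNr M φ n x) n ∧ DomBy M' C q (condNr M φ n x) n

theorem cyc_inv {X G : Type*} [Group G] {A A' : X → X} (hA : ∀ x, A (A' x) = x) (φ : X → G) (n : ℕ) (x : X) :
    cyc A' (fun x => (φ (A' x))⁻¹) n x = (cyc A φ n (A'^[n] x))⁻¹ := by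
  have hcan : ∀ (n : ℕ) (y : X), A^[n] (A'^[n] y) = y := by
    intro n
    induction n with
    | zero => intro y; rfl
    | succ n ih =>
      intro y
      rw [Function.iterate_succ_apply, Function.iterate_succ_apply', hA, ih]
  have hs : ∀ (n : ℕ) (x : X), cyc A φ (n + 1) x = φ (A^[n] x) * cyc A φ n x := by
    intro n
    induction n with
    | zero => intro x; simp [cyc]
    | succ n ih =>
      intro x
      have h1 : cyc A φ (n + 1 + 1) x = cyc A φ (n + 1) (A x) * φ x := rfl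
      rw [h1, ih, mul_assoc, Function.iterate_succ_apply]
      rfl
  induction n generalizing x with
  | zero => simp [cyc]
  | succ n ih =>
    have h1 : cyc A' (fun x => (φ (A' x))⁻¹) (n + 1) x =
        cyc A' (fun x => (φ (A' x))⁻¹) n (A' x) * (φ (A' x))⁻¹ := rfl
    rw [h1, ih, hs, mul_inv_rev, Function.iterate_succ_apply, hcan]

variable [NormedAlgebra ℝ R] [FiniteDimensional ℝ R]

/-- every skew product of `φ : 𝕋^d → G` with a compact metrizable `G`-space `N` with an invariant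
probability measure `μ` is ergodic and mixing as soon as it is essentially accessible; here `H₁`,
`H₂` are the stable and unstable holonomies -/
def PughShub.{u, w} {d : ℕ} {G : Type u} [TopologicalSpace G] [Group G] (M M' : Matrix (Fin d) (Fin d) ℤ)
    (φ : Tor d → G) (H₁ : Tor d → stab M → G) (H₂ : Tor d → stab M' → G) : Prop :=
  ∀ (N : Type w) [TopologicalSpace N] [CompactSpace N] [T2Space N] [SecondCountableTopology N]
    [MeasurableSpace N] [BorelSpace N] [MulAction G N] [ContinuousSMul G N]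
    (μ : Measure N) [IsProbabilityMeasure μ] [SMulInvariantMeasure G N μ],
    EssAccessible M M' H₁ H₂ ((volume : Measure (Tor d)).prod μ) →
    Ergodic (skew (torMap M) φ) ((volume : Measure (Tor d)).prod μ) ∧
    Mixing (skew (torMap M) φ) ((volume : Measure (Tor d)).prod μ)

/-- the stable holonomy of `φ` is `H₁` and the unstable one is `H₂` -/
def Holonomies {d : ℕ} {G : Type*} [TopologicalSpace G] [Group G] (M M' : Matrix (Fin d) (Fin d) ℤ)
    (φ : Tor d → G) (H₁ : Tor d → stab M → G) (H₂ : Tor d → stab M' → G) : Prop :=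
  IsTorHol M φ H₁ ∧ IsTorHol M' (fun x => (φ (torMap M' x))⁻¹) H₂

/-- the stable and unstable holonomies of `φ` exist, are continuous, and the skew products are
ergodic and mixing when essentially accessible -/
def PughShubHol.{u, w} {d : ℕ} {G : Type u} [TopologicalSpace G] [Group G] (M M' : Matrix (Fin d) (Fin d) ℤ)
    (φ : Tor d → G) : Prop :=
  ∃ H₁ H₂, Holonomies M M' φ H₁ H₂ ∧ PughShub.{u, w} M M' φ H₁ H₂

theorem main_linear {M M' : Matrix (Fin d) (Fin d) ℤ} (h : Hyp M M') (hG : IsClosed (G : Set Rˣ))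
    {φ : Tor d → G} (hφ : LipCocycle φ) (hdom : Dominated M M' φ) :
    PughShubHol M M' φ := by
  haveI : CompleteSpace R := FiniteDimensional.complete ℝ R
  haveI : ProperSpace R := FiniteDimensional.proper ℝ R
  haveI : SecondCountableTopology Rˣ := Units.isOpenEmbedding_val.isEmbedding.secondCountableTopology
  haveI : SecondCountableTopology G := Topology.IsEmbedding.subtypeVal.secondCountableTopology
  haveI : LocallyCompactSpace G := hG.isClosedEmbedding_subtypeVal.locallyCompactSpace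
  obtain ⟨K₀, hK₀⟩ := hφ
  set K := max K₀ 0 with hKd
  have hK : 0 ≤ K := le_max_right _ _
  have hφK : ∀ x y : Tor d, ‖((φ x : Rˣ) : R) - ((φ y : Rˣ) : R)‖ ≤ K * ‖x - y‖ := fun x y =>
    (hK₀ x y).trans (mul_le_mul_of_nonneg_right (le_max_left _ _) (norm_nonneg _))
  have cφR : Continuous fun x => ((φ x : Rˣ) : R) := by
    refine (LipschitzWith.of_dist_le_mul (K := ⟨K, hK⟩) fun x y => ?_).continuous
    rw [dist_eq_norm, dist_eq_norm]
    exact hφK x y
  have cφ : Continuous φ :=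
    continuous_induced_rng.2 (Units.isOpenEmbedding_val.isEmbedding.continuous_iff.2 cφR)
  obtain ⟨K', hK'⟩ : ∃ K' : ℝ, ∀ x, gn (φ x)⁻¹ ≤ K' ∧ gn (φ x) ≤ K' := by
    have c1 : Continuous fun x => gn (φ x)⁻¹ :=
      (continuous_norm.comp (Units.continuous_val.comp (continuous_subtype_val.comp cφ.inv)))
    have c2 : Continuous fun x => gn (φ x) := continuous_norm.comp cφR
    obtain ⟨k₁, hk₁⟩ := (isCompact_range c1).bddAbove
    obtain ⟨k₂, hk₂⟩ := (isCompact_range c2).bddAbove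
    exact ⟨max k₁ k₂, fun x => ⟨(hk₁ ⟨x, rfl⟩).trans (le_max_left _ _), (hk₂ ⟨x, rfl⟩).trans (le_max_right _ _)⟩⟩
  have hK'0 : 0 ≤ K' := (gn_nonneg _).trans (hK' 0).1
  obtain ⟨C₀, q, hq0, hq1, hdom⟩ := hdom
  set C := max C₀ 0 with hC
  have hC0 : 0 ≤ C := le_max_right _ _
  have hCle : ∀ (n : ℕ) (r : ℝ), 0 ≤ r → C₀ * q ^ n * r ≤ C * q ^ n * r := by
    intro n r hr
    have : C₀ ≤ C := le_max_left _ _
    gcongr
  -- the stable holonomy
  obtain ⟨H₁, h₁⟩ := exists_hol hG (continuous_torMap M) (stabPr M) (norm_stabPr_le M) (torMap_stabPr M) cφ hK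
    hφK (fun x => (hK' x).1) hC0 hq0 hq1 (fun n x v => by
      refine le_trans ?_ (hCle n ‖v‖ (norm_nonneg _))
      have := (hdom n x).1 v v.2
      rw [← stabMap_iter] at this
      exact this)
  -- the unstable holonomy
  set ψ : Tor d → G := fun x => (φ (torMap M' x))⁻¹ with hψ
  obtain ⟨c, hc0, hc⟩ := norm_torMap_le M'
  have hAA' : ∀ x, torMap M (torMap M' x) = x := fun x => by rw [← torMap_mul, h.1, torMap_one]
  have hψL : ∀ x y : Tor d, ‖((ψ x : Rˣ) : R) - ((ψ y : Rˣ) : R)‖ ≤ (K' * (K * c) * K') * ‖x - y‖ := by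
    intro x y
    set a := φ (torMap M' x) with ha
    set b := φ (torMap M' y) with hb
    have e : ((ψ x : Rˣ) : R) - ((ψ y : Rˣ) : R) =
        (((a⁻¹ : G) : Rˣ) : R) * (((b : Rˣ) : R) - ((a : Rˣ) : R)) * (((b⁻¹ : G) : Rˣ) : R) := by
      have e1 : (((a⁻¹ : G) : Rˣ) : R) * ((a : Rˣ) : R) = 1 := by
        rw [Subgroup.coe_inv]
        exact Units.inv_mul _
      have e2 : ((b : Rˣ) : R) * (((b⁻¹ : G) : Rˣ) : R) = 1 := by
        rw [Subgroup.coe_inv]
        exact Units.mul_inv _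
      show (((a⁻¹ : G) : Rˣ) : R) - (((b⁻¹ : G) : Rˣ) : R) = _
      rw [mul_sub, sub_mul, e1, one_mul, mul_assoc, e2, mul_one]
    rw [e]
    have h3 : ‖((b : Rˣ) : R) - ((a : Rˣ) : R)‖ ≤ K * (c * ‖x - y‖) := by
      refine (hφK _ _).trans ?_
      refine mul_le_mul_of_nonneg_left ?_ hK
      rw [← map_sub, norm_sub_rev x y]
      exact hc _
    calc ‖(((a⁻¹ : G) : Rˣ) : R) * (((b : Rˣ) : R) - ((a : Rˣ) : R)) * (((b⁻¹ : G) : Rˣ) : R)‖
        ≤ (gn a⁻¹ * ‖((b : Rˣ) : R) - ((a : Rˣ) : R)‖) * gn b⁻¹ := by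
          refine (norm_mul_le _ _).trans ?_
          exact mul_le_mul_of_nonneg_right (norm_mul_le _ _) (gn_nonneg _)
      _ ≤ (K' * (K * (c * ‖x - y‖))) * K' := by
          have h5 := (hK' (torMap M' x)).1
          have h6 := (hK' (torMap M' y)).1
          have h7 := gn_nonneg a⁻¹
          have h8 := gn_nonneg b⁻¹
          rw [← ha] at h5
          rw [← hb] at h6
          gcongr
      _ = (K' * (K * c) * K') * ‖x - y‖ := by ring
  obtain ⟨H₂, h₂⟩ := exists_hol hG (continuous_torMap M') (stabPr M') (norm_stabPr_le M') (torMap_stabPr M')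
    (φ := ψ) ((cφ.comp (continuous_torMap M')).inv) (K := K' * (K * c) * K') (by positivity)
    hψL (K' := K') (fun x => by
      show gn ((φ (torMap M' x))⁻¹)⁻¹ ≤ K'
      rw [inv_inv]
      exact (hK' _).2) hC0 hq0 hq1 (fun n x v => by
      refine le_trans ?_ (hCle n ‖v‖ (norm_nonneg _))
      have := (hdom n ((torMap M')^[n] x)).2 v v.2
      rw [← stabMap_iter] at this
      have h9 : cyc (torMap M') ψ n x = (cyc (torMap M) φ n ((torMap M')^[n] x))⁻¹ := cyc_inv hAA' φ n x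
      rw [h9, inv_inv, mul_comm (gn _⁻¹) (gn _)]
      exact this)
  refine ⟨H₁, H₂, ⟨h₁, h₂⟩, ?_⟩
  intro N _ _ _ _ _ _ _ _ μ _ _ hacc
  have hm := torus_mixing h cφ h₁ h₂ μ hacc
  exact ⟨ergodic_of_mixing _ hm.1 hm.2, hm⟩

end Linear

end PSG
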