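import Mathlib

/-!
# MP_adbfe6_an: the Mautner argument in a Hilbert space
-/

open Filter Topology

namespace PSG

section Hilbert

variable {H : Type*} [NormedAddCommGroup H] [InnerProductSpace ℝ H]

/-- vectors whose correlations decay -/
def Dec (U : H →ₗᵢ[ℝ] H) : Submodule ℝ H where
  carrier := {F | ∀ K, Tendsto (fun n : ℕ => inner ℝ F (U^[n] K)) atTop (𝓝 0)}
  add_mem' := by
    intro F F' h h' K
    have := (h K).add (h' K)
    simp only [add_zero] at this
    refine this.congr fun n => ?_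
    rw [inner_add_left]
  zero_mem' := by
    intro K
    simp
  smul_mem' := by
    intro c F h K
    have := (h K).const_mul c
    simp only [mul_zero] at this
    refine this.congr fun n => ?_
    rw [real_inner_smul_left]

theorem mem_Dec {U : H →ₗᵢ[ℝ] H} {F : H} :
    F ∈ Dec U ↔ ∀ K, Tendsto (fun n : ℕ => inner ℝ F (U^[n] K)) atTop (𝓝 0) := Iff.rfl

theorem norm_iterate (U : H →ₗᵢ[ℝ] H) (n : ℕ) (K : H) : ‖U^[n] K‖ = ‖K‖ := by
  induction n with
  | zero => rfl
  | succ n ih => rw [Function.iterate_succ_apply', U.norm_map, ih]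

theorem inner_iterate (U : H →ₗᵢ[ℝ] H) (n : ℕ) (K K' : H) : inner ℝ (U^[n] K) (U^[n] K') = inner ℝ K K' := by
  induction n with
  | zero => rfl
  | succ n ih => rw [Function.iterate_succ_apply', Function.iterate_succ_apply', U.inner_map_map, ih]

theorem iterate_sub (U : H →ₗᵢ[ℝ] H) (n : ℕ) (K K' : H) : U^[n] (K - K') = U^[n] K - U^[n] K' := by
  induction n with
  | zero => rfl
  | succ n ih => simp only [Function.iterate_succ_apply', ih, map_sub]

theorem isClosed_Dec (U : H →ₗᵢ[ℝ] H) : IsClosed (Dec U : Set H) := by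
  refine isClosed_of_closure_subset ?_
  intro F hF K
  rw [Metric.tendsto_atTop]
  intro ε hε
  rw [Metric.mem_closure_iff] at hF
  obtain ⟨F', hF', hd⟩ := hF (ε / (2 * (‖K‖ + 1))) (by positivity)
  obtain ⟨n₀, hn₀⟩ := (Metric.tendsto_atTop.1 (hF' K)) (ε / 2) (by positivity)
  refine ⟨n₀, fun n hn => ?_⟩
  have h1 := hn₀ n hn
  rw [Real.dist_eq, sub_zero] at h1 ⊢
  have h2 : inner ℝ F (U^[n] K) = inner ℝ (F - F') (U^[n] K) + inner ℝ F' (U^[n] K) := by
    rw [← inner_add_left, sub_add_cancel]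
  have h3 : |inner ℝ (F - F') (U^[n] K)| ≤ ‖F - F'‖ * ‖K‖ := by
    have := abs_real_inner_le_norm (F - F') (U^[n] K)
    rwa [norm_iterate] at this
  have h4 : ‖F - F'‖ * ‖K‖ ≤ ε / 2 := by
    rw [dist_eq_norm] at hd
    have hK : 0 ≤ ‖K‖ := norm_nonneg K
    calc ‖F - F'‖ * ‖K‖ ≤ (ε / (2 * (‖K‖ + 1))) * (‖K‖ + 1) := by
          apply mul_le_mul hd.le (by linarith) hK (by positivity)
      _ = ε / 2 := by field_simp
  rw [h2]
  calc |inner ℝ (F - F') (U^[n] K) + inner ℝ F' (U^[n] K)|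
      ≤ |inner ℝ (F - F') (U^[n] K)| + |inner ℝ F' (U^[n] K)| := abs_add_le _ _
    _ < ε / 2 + ε / 2 := by linarith
    _ = ε := by ring

theorem map_mem_Dec {U : H →ₗᵢ[ℝ] H} {F : H} (h : F ∈ Dec U) (n : ℕ) : U^[n] F ∈ Dec U := by
  induction n with
  | zero => exact h
  | succ n ih =>
    intro K
    rw [← tendsto_add_atTop_iff_nat 1]
    refine (ih K).congr fun k => ?_
    rw [Function.iterate_succ_apply', Function.iterate_succ_apply', U.inner_map_map]

variable [CompleteSpace H]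

theorem exists_decomp (U : H →ₗᵢ[ℝ] H) (K : H) : ∃ K₁ ∈ Dec U, ∃ K₂ ∈ (Dec U)ᗮ, K = K₁ + K₂ := by
  haveI : CompleteSpace (Dec U) := (isClosed_Dec U).completeSpace_coe
  obtain ⟨K₁, h1, K₂, h2, h3⟩ := (Dec U).exists_add_mem_mem_orthogonal K
  exact ⟨K₁, h1, K₂, h2, h3⟩

theorem Dec_le {U V : H →ₗᵢ[ℝ] H} (hUV : ∀ K, U (V K) = K) : Dec U ≤ Dec V := by
  intro F hF K
  obtain ⟨K₁, h1, K₂, h2, rfl⟩ := exists_decomp U K
  have hUVn : ∀ (n : ℕ) (K : H), U^[n] (V^[n] K) = K := by
    intro n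
    induction n with
    | zero => intro K; rfl
    | succ n ih =>
      intro K
      rw [Function.iterate_succ_apply, Function.iterate_succ_apply', hUV, ih]
  have h3 : ∀ n : ℕ, inner ℝ F (V^[n] (K₁ + K₂)) = inner ℝ K₁ (U^[n] F) := by
    intro n
    rw [← inner_iterate U n, hUVn, inner_add_right,
      Submodule.inner_right_of_mem_orthogonal (map_mem_Dec hF n) h2, add_zero, real_inner_comm]
  exact (h1 F).congr fun n => (h3 n).symm

theorem fixed_of_orth {U : H →ₗᵢ[ℝ] H} {F : H} (hF : F ∈ (Dec U)ᗮ) (W : H →L[ℝ] H) (Wn : ℕ → H → H)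
    (hW : ∀ n K, W (U^[n] K) = U^[n] (Wn n K)) (hlim : ∀ K, Tendsto (fun n => Wn n K) atTop (𝓝 K)) :
    W F = F := by
  have key : ∀ H' : H, (ContinuousLinearMap.adjoint W) H' - H' ∈ Dec U := by
    intro H' K
    have h1 : ∀ n : ℕ, inner ℝ ((ContinuousLinearMap.adjoint W) H' - H') (U^[n] K) =
        inner ℝ H' (U^[n] (Wn n K - K)) := by
      intro n
      rw [inner_sub_left, ContinuousLinearMap.adjoint_inner_left, hW, iterate_sub, inner_sub_right]
    simp only [h1]
    have h2 : Tendsto (fun n => ‖H'‖ * ‖Wn n K - K‖) atTop (𝓝 0) := by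
      have h3 : Tendsto (fun n => Wn n K - K) atTop (𝓝 0) := by
        have := (hlim K).sub_const K
        rwa [sub_self] at this
      have := (h3.norm).const_mul ‖H'‖
      rwa [norm_zero, mul_zero] at this
    refine squeeze_zero_norm (fun n => ?_) h2
    rw [Real.norm_eq_abs]
    have := abs_real_inner_le_norm H' (U^[n] (Wn n K - K))
    rwa [norm_iterate] at this
  have h4 := Submodule.inner_right_of_mem_orthogonal (key (W F - F)) hF
  rw [inner_sub_left, ContinuousLinearMap.adjoint_inner_left, ← inner_sub_right] at h4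
  exact sub_eq_zero.1 (inner_self_eq_zero.1 h4)

theorem orth_le_Dec {U : H →ₗᵢ[ℝ] H} {C : Submodule ℝ H} (h : (Dec U)ᗮ ≤ C) : Cᗮ ≤ Dec U := by
  haveI : CompleteSpace (Dec U) := (isClosed_Dec U).completeSpace_coe
  have h1 := Submodule.orthogonal_le h
  rwa [Submodule.orthogonal_orthogonal] at h1

end Hilbert

end PSG
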