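import Mathlib

/-!
# MP_adbfe6_an: holonomy invariant sets in skew products with locally compact structure group

`X` is a compact abelian group (the torus), `E₁`, `E₂` are the stable and unstable spaces with homomorphisms
`p₁ : E₁ → X`, `p₂ : E₂ → X`, `N` is the fibre, `G` the structure group, `H₁`, `H₂` are the stable and unstable
holonomies.  A measurable set which is invariant mod 0 under every holonomy agrees in measure with a measurable set
which is exactly saturated by the holonomies.
-/

open MeasureTheory Filter Topology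

namespace PSG

section Rel

variable {N G : Type*} [Group G] [MulAction G N] [MeasurableSpace N]

/-- `g S = S'` mod 0 -/
def R (μ : Measure N) (g : G) (S S' : Set N) : Prop := ∀ᵐ y ∂μ, (g • y ∈ S' ↔ y ∈ S)

variable {μ : Measure N} [MeasurableConstSMul G N] [SMulInvariantMeasure G N μ]

omit [MeasurableConstSMul G N] [SMulInvariantMeasure G N μ] in
theorem R.refl (S : Set N) : R μ (1 : G) S S := by
  unfold R
  simp

theorem R.trans {g g' : G} {S S' S'' : Set N} (h : R μ g S S') (h' : R μ g' S' S'') :
    R μ (g' * g) S S'' := by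
  have h2 : ∀ᵐ y ∂μ, (g' • g • y ∈ S'' ↔ g • y ∈ S') :=
    (measurePreserving_smul g μ).quasiMeasurePreserving.ae h'
  filter_upwards [h, h2] with y h1 h3
  rw [mul_smul, h3, h1]

theorem R.symm {g : G} {S S' : Set N} (h : R μ g S S') : R μ g⁻¹ S' S := by
  have h2 : ∀ᵐ y ∂μ, (g • g⁻¹ • y ∈ S' ↔ g⁻¹ • y ∈ S) :=
    (measurePreserving_smul g⁻¹ μ).quasiMeasurePreserving.ae h
  filter_upwards [h2] with y h3
  rw [← h3, smul_inv_smul]

theorem R.measure_eq {g : G} {S S' : Set N} (h : R μ g S S') (hS' : MeasurableSet S') : μ S' = μ S := by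
  have h1 : μ ((fun y => g • y) ⁻¹' S') = μ S' := (measurePreserving_smul g μ).measure_preimage
    hS'.nullMeasurableSet
  rw [← h1]
  exact measure_congr (Filter.eventuallyEq_set.2 h)

/-- the stabiliser of a set mod 0 -/
def Stab (G : Type*) [Group G] [MulAction G N] [MeasurableConstSMul G N] (μ : Measure N)
    [SMulInvariantMeasure G N μ] (S : Set N) : Subgroup G where
  carrier := {g | R μ g S S}
  mul_mem' := fun ha hb => R.trans hb ha
  one_mem' := R.refl S
  inv_mem' := fun ha => R.symm ha

theorem mem_Stab {g : G} {S : Set N} : g ∈ Stab G μ S ↔ R μ g S S := Iff.rfl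

end Rel

section Closed

variable {N G : Type*} [Group G] [TopologicalSpace G] [TopologicalSpace N] [MulAction G N]
  [ContinuousSMul G N] [MeasurableSpace N] [BorelSpace N] [CompactSpace N] [T2Space N]
  [SecondCountableTopology N] (μ : Measure N) [IsProbabilityMeasure μ] [SMulInvariantMeasure G N μ]

theorem isClosed_Stab {S : Set N} (hS : MeasurableSet S) : IsClosed (Stab G μ S : Set G) := by
  let f : G → C(N, N) := fun g => ⟨fun y => g • y, continuous_const_smul g⟩
  have hf : Continuous f := ContinuousMap.continuous_of_continuous_uncurry _ (by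
    show Continuous fun p : G × N => p.1 • p.2
    exact continuous_smul)
  have h := isClosed_setOfPred_preimage_ae_eq (μ := μ) (ν := μ) hf
    (fun g => measurePreserving_smul g μ) S (t := S) hS.nullMeasurableSet (measure_ne_top μ S)
  convert h using 1
  ext g
  show R μ g S S ↔ _
  rw [Set.mem_ofPred_eq, Filter.eventuallyEq_set]
  rfl

/-- the exactly invariant version -/
theorem exists_exact [IsTopologicalGroup G] [LocallyCompactSpace G] [SecondCountableTopology G] [T2Space G]
    [MeasurableSpace G] [BorelSpace G] {S : Set N} (hS : MeasurableSet S) :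
    ∃ S' : Set N, MeasurableSet S' ∧ μ S' = μ S ∧ ∀ g ∈ Stab G μ S, ∀ y, g • y ∈ S' ↔ y ∈ S' := by
  have hcl := isClosed_Stab (G := G) μ hS
  set Γ := Stab G μ S with hΓ
  have : LocallyCompactSpace Γ := hcl.isClosedEmbedding_subtypeVal.locallyCompactSpace
  have : SecondCountableTopology Γ := TopologicalSpace.Subtype.secondCountableTopology _
  have : BorelSpace Γ := Subtype.borelSpace _
  have : MeasurableMul₂ Γ := ContinuousMul.measurableMul₂
  let ν : Measure Γ := Measure.haar
  have : SigmaFinite ν := by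
    show SigmaFinite (Measure.haar : Measure Γ)
    infer_instance
  let p : N × Γ → Prop := fun z => (z.2 : G) • z.1 ∈ S
  have hpm : MeasurableSet {z : N × Γ | p z} := by
    have : Measurable fun z : N × Γ => (z.2 : G) • z.1 := by
      apply Continuous.measurable
      exact (continuous_subtype_val.comp continuous_snd).smul continuous_fst
    exact this hS
  refine ⟨{y | ∀ᵐ g ∂ν, p (y, g)}, ?_, ?_, ?_⟩
  · have h1 : {y | ∀ᵐ g ∂ν, p (y, g)} = (fun y => ν (Prod.mk y ⁻¹' {z : N × Γ | p z}ᶜ)) ⁻¹' {0} := by
      ext y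
      rfl
    rw [h1]
    exact measurable_measure_prodMk_left hpm.compl (measurableSet_singleton 0)
  · apply measure_congr
    rw [Filter.eventuallyEq_set]
    have h1 : ∀ g : Γ, ∀ᵐ y ∂μ, ((g : G) • y ∈ S ↔ y ∈ S) := fun g => g.2
    have hm : MeasurableSet {x : N × Γ | ((x.2 : G) • x.1 ∈ S ↔ x.1 ∈ S)} := by
      have h2 : {x : N × Γ | ((x.2 : G) • x.1 ∈ S ↔ x.1 ∈ S)} =
          ({z : N × Γ | p z} ∩ Prod.fst ⁻¹' S) ∪ ({z : N × Γ | p z}ᶜ ∩ (Prod.fst ⁻¹' S)ᶜ) := by
        ext x
        simp only [Set.mem_ofPred_eq, Set.mem_union, Set.mem_inter_iff, Set.mem_compl_iff, Set.mem_preimage, p]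
        tauto
      rw [h2]
      have h3 : MeasurableSet (Prod.fst ⁻¹' S : Set (N × Γ)) := measurable_fst hS
      exact (hpm.inter h3).union (hpm.compl.inter h3.compl)
    have h2 := (Measure.ae_ae_comm (μ := μ) (ν := ν)
      (p := fun (y : N) (g : Γ) => ((g : G) • y ∈ S ↔ y ∈ S)) hm).2 (Filter.Eventually.of_forall h1)
    filter_upwards [h2] with y hy
    show (∀ᵐ g ∂ν, p (y, g)) ↔ y ∈ S
    constructor
    · intro h3
      obtain ⟨g, hg1, hg2⟩ := (hy.and h3).exists
      exact hg1.1 hg2
    · intro h3
      filter_upwards [hy] with g hg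
      exact hg.2 h3
  · intro g hg y
    show (∀ᵐ k ∂ν, p (g • y, k)) ↔ ∀ᵐ k ∂ν, p (y, k)
    have key : ∀ (g : Γ) (y : N), (∀ᵐ k ∂ν, p (y, k)) → ∀ᵐ k ∂ν, p ((g : G) • y, k) := by
      intro g y h
      have h1 := (quasiMeasurePreserving_mul_right ν g).ae h
      filter_upwards [h1] with k hk
      show (k : G) • (g : G) • y ∈ S
      rw [← mul_smul]
      exact hk
    constructor
    · intro h
      have := key (⟨g, hg⟩⁻¹ : Γ) (g • y) h
      simpa using this
    · intro h
      exact key ⟨g, hg⟩ y h

end Closed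

end PSG
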