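import Pool.Agent.Work.MP_adbfe6_an.Main

/-!
# MP_adbfe6_an: exactly saturated versions of holonomy invariant sets
-/

open MeasureTheory Filter Topology

namespace PSG

/-- base directions and holonomies -/
structure HolData (X E₁ E₂ G : Type*) [TopologicalSpace X] [AddCommGroup X] [TopologicalSpace E₁]
    [AddCommGroup E₁] [TopologicalSpace E₂] [AddCommGroup E₂] [TopologicalSpace G] where
  p₁ : E₁ →+ X
  p₂ : E₂ →+ X
  cp₁ : Continuous p₁
  cp₂ : Continuous p₂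
  H₁ : X → E₁ → G
  H₂ : X → E₂ → G
  cH₁ : Continuous fun z : X × E₁ => H₁ z.1 z.2
  cH₂ : Continuous fun z : X × E₂ => H₂ z.1 z.2

section

variable {X E₁ E₂ G N : Type*} [TopologicalSpace X] [AddCommGroup X] [TopologicalSpace E₁]
    [AddCommGroup E₁] [TopologicalSpace E₂] [AddCommGroup E₂] [TopologicalSpace G] [Group G] [MulAction G N]

/-- `q` is in the stable or in the unstable leaf of `p` -/
def HolData.Step (D : HolData X E₁ E₂ G) (p q : X × N) : Prop :=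
  (∃ v : E₁, q = (p.1 + D.p₁ v, D.H₁ p.1 v • p.2)) ∨ (∃ w : E₂, q = (p.1 + D.p₂ w, D.H₂ p.1 w • p.2))

/-- the slice of a set -/
def sl (S : Set (X × N)) (x : X) : Set N := {y | (x, y) ∈ S}

end

section Meas

variable {X G N W : Type*} [MeasurableSpace X] [Group G] [MulAction G N] [MeasurableSpace N]
  [MeasurableSpace G] [MeasurableSMul₂ G N] [MeasurableSpace W]

theorem measurableSet_sl {S : Set (X × N)} (hS : MeasurableSet S) (x : X) : MeasurableSet (sl S x) :=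
  measurable_prodMk_left hS

theorem measurableSet_ae {α β : Type*} [MeasurableSpace α] [MeasurableSpace β] (ν : Measure β) [SFinite ν]
    {p : α → β → Prop} (hp : MeasurableSet {z : α × β | p z.1 z.2}) : MeasurableSet {a | ∀ᵐ b ∂ν, p a b} := by
  have h1 : {a | ∀ᵐ b ∂ν, p a b} = (fun a => ν (Prod.mk a ⁻¹' {z : α × β | p z.1 z.2}ᶜ)) ⁻¹' {0} := by
    ext a
    rfl
  rw [h1]
  exact measurable_measure_prodMk_left hp.compl (measurableSet_singleton 0)

theorem measurableSet_iff {α : Type*} [MeasurableSpace α] {A B : Set α} (hA : MeasurableSet A)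
    (hB : MeasurableSet B) : MeasurableSet {x | (x ∈ A ↔ x ∈ B)} := by
  have h2 : {x | (x ∈ A ↔ x ∈ B)} = (A ∩ B) ∪ (Aᶜ ∩ Bᶜ) := by
    ext x
    simp only [Set.mem_ofPred_eq, Set.mem_union, Set.mem_inter_iff, Set.mem_compl_iff]
    tauto
  rw [h2]
  exact (hA.inter hB).union (hA.compl.inter hB.compl)

theorem measurableSet_R (μ : Measure N) [SFinite μ] {S : Set (X × N)} (hS : MeasurableSet S)
    {g : W → G} {b c : W → X} (hg : Measurable g) (hb : Measurable b) (hc : Measurable c) :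
    MeasurableSet {w | R μ (g w) (sl S (b w)) (sl S (c w))} := by
  unfold R
  refine measurableSet_ae μ ?_
  have h1 : MeasurableSet {z : W × N | (c z.1, g z.1 • z.2) ∈ S} := by
    have : Measurable fun z : W × N => ((c z.1, g z.1 • z.2) : X × N) :=
      (hc.comp measurable_fst).prodMk ((hg.comp measurable_fst).smul measurable_snd)
    exact this hS
  have h2 : MeasurableSet {z : W × N | (b z.1, z.2) ∈ S} := by
    have : Measurable fun z : W × N => ((b z.1, z.2) : X × N) :=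
      (hb.comp measurable_fst).prodMk measurable_snd
    exact this hS
  exact measurableSet_iff h1 h2

end Meas

section Sat

variable {X E₁ E₂ G N : Type*}
  [TopologicalSpace X] [AddCommGroup X] [IsTopologicalAddGroup X] [SecondCountableTopology X]
  [MeasurableSpace X] [BorelSpace X]
  [TopologicalSpace E₁] [AddCommGroup E₁] [IsTopologicalAddGroup E₁] [SecondCountableTopology E₁]
  [MeasurableSpace E₁] [BorelSpace E₁]
  [TopologicalSpace E₂] [AddCommGroup E₂] [IsTopologicalAddGroup E₂] [SecondCountableTopology E₂]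
  [MeasurableSpace E₂] [BorelSpace E₂]
  [TopologicalSpace G] [Group G] [IsTopologicalGroup G] [SecondCountableTopology G] [LocallyCompactSpace G]
  [T2Space G] [MeasurableSpace G] [BorelSpace G]
  [TopologicalSpace N] [CompactSpace N] [T2Space N] [SecondCountableTopology N] [MeasurableSpace N]
  [BorelSpace N] [MulAction G N] [ContinuousSMul G N]
  (m : Measure X) [IsProbabilityMeasure m] [m.IsAddLeftInvariant]
  (ν₁ : Measure E₁) [SigmaFinite ν₁] [ν₁.IsAddLeftInvariant] [ν₁.IsOpenPosMeasure]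
  (ν₂ : Measure E₂) [SigmaFinite ν₂] [ν₂.IsAddLeftInvariant] [ν₂.IsOpenPosMeasure]
  (μ : Measure N) [IsProbabilityMeasure μ] [SMulInvariantMeasure G N μ]

namespace HolData

variable (D : HolData X E₁ E₂ G)

/-- `(v, w) ↦ v + w` in `X` -/
def Pi (e : E₁ × E₂) : X := D.p₁ e.1 + D.p₂ e.2

omit [IsTopologicalAddGroup X] [SecondCountableTopology X] [MeasurableSpace X] [BorelSpace X]
  [IsTopologicalAddGroup E₁] [SecondCountableTopology E₁] [MeasurableSpace E₁] [BorelSpace E₁]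
  [IsTopologicalAddGroup E₂] [SecondCountableTopology E₂] [MeasurableSpace E₂] [BorelSpace E₂]
  [Group G] [IsTopologicalGroup G] [SecondCountableTopology G] [LocallyCompactSpace G]
  [T2Space G] [MeasurableSpace G] [BorelSpace G] in
theorem Pi_add (e e' : E₁ × E₂) : D.Pi (e + e') = D.Pi e + D.Pi e' := by
  unfold Pi
  rw [Prod.fst_add, Prod.snd_add, map_add, map_add]
  abel

omit [SecondCountableTopology X] [MeasurableSpace X] [BorelSpace X]
  [IsTopologicalAddGroup E₁] [SecondCountableTopology E₁] [MeasurableSpace E₁] [BorelSpace E₁]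
  [IsTopologicalAddGroup E₂] [SecondCountableTopology E₂] [MeasurableSpace E₂] [BorelSpace E₂]
  [Group G] [IsTopologicalGroup G] [SecondCountableTopology G] [LocallyCompactSpace G]
  [T2Space G] [MeasurableSpace G] [BorelSpace G] in
theorem continuous_Pi : Continuous D.Pi :=
  (D.cp₁.comp continuous_fst).add (D.cp₂.comp continuous_snd)

/-- holonomy from `x₀` along `(v, w)` -/
def K (x₀ : X) (e : E₁ × E₂) : G := D.H₂ (x₀ + D.p₁ e.1) e.2 * D.H₁ x₀ e.1

omit [SecondCountableTopology X] [MeasurableSpace X] [BorelSpace X]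
  [IsTopologicalAddGroup E₁] [SecondCountableTopology E₁] [MeasurableSpace E₁] [BorelSpace E₁]
  [IsTopologicalAddGroup E₂] [SecondCountableTopology E₂] [MeasurableSpace E₂] [BorelSpace E₂]
  [SecondCountableTopology G] [LocallyCompactSpace G]
  [T2Space G] [MeasurableSpace G] [BorelSpace G] in
theorem continuous_K : Continuous fun z : X × (E₁ × E₂) => D.K z.1 z.2 := by
  unfold K
  have h1 : Continuous fun z : X × (E₁ × E₂) => D.H₂ (z.1 + D.p₁ z.2.1) z.2.2 :=
    D.cH₂.comp ((continuous_fst.add (D.cp₁.comp (continuous_fst.comp continuous_snd))).prodMk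
      (continuous_snd.comp continuous_snd))
  have h2 : Continuous fun z : X × (E₁ × E₂) => D.H₁ z.1 z.2.1 :=
    D.cH₁.comp (continuous_fst.prodMk (continuous_fst.comp continuous_snd))
  exact h1.mul h2

/-- the generic base point -/
theorem generic {S : Set (X × N)} (hS : MeasurableSet S)
    (h₁ : ∀ v : E₁, ∀ᵐ x ∂m, R μ (D.H₁ x v) (sl S x) (sl S (x + D.p₁ v)))
    (h₂ : ∀ w : E₂, ∀ᵐ x ∂m, R μ (D.H₂ x w) (sl S x) (sl S (x + D.p₂ w))) :
    ∃ x₀ : X,
      (∀ᵐ e ∂(ν₁.prod ν₂), R μ (D.K x₀ e) (sl S x₀) (sl S (x₀ + D.Pi e))) ∧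
      (∀ᵐ e ∂(ν₁.prod ν₂), ∀ᵐ v ∂ν₁, R μ (D.H₁ (x₀ + D.Pi e) v) (sl S (x₀ + D.Pi e))
        (sl S (x₀ + D.Pi e + D.p₁ v))) ∧
      (∀ᵐ e ∂(ν₁.prod ν₂), ∀ᵐ w ∂ν₂, R μ (D.H₂ (x₀ + D.Pi e) w) (sl S (x₀ + D.Pi e))
        (sl S (x₀ + D.Pi e + D.p₂ w))) := by
  have hp₁ : Measurable D.p₁ := D.cp₁.measurable
  have hp₂ : Measurable D.p₂ := D.cp₂.measurable
  have hH₁ : Measurable fun z : X × E₁ => D.H₁ z.1 z.2 := D.cH₁.measurable
  have hH₂ : Measurable fun z : X × E₂ => D.H₂ z.1 z.2 := D.cH₂.measurable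
  have hPi : Measurable D.Pi := D.continuous_Pi.measurable
  have hK : Measurable fun z : X × (E₁ × E₂) => D.K z.1 z.2 := D.continuous_K.measurable
  -- the sets of good pairs
  have m₁ : MeasurableSet {z : X × E₁ | R μ (D.H₁ z.1 z.2) (sl S z.1) (sl S (z.1 + D.p₁ z.2))} :=
    measurableSet_R μ hS hH₁ measurable_fst (measurable_fst.add (hp₁.comp measurable_snd))
  have m₂ : MeasurableSet {z : X × E₂ | R μ (D.H₂ z.1 z.2) (sl S z.1) (sl S (z.1 + D.p₂ z.2))} :=
    measurableSet_R μ hS hH₂ measurable_fst (measurable_fst.add (hp₂.comp measurable_snd))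
  have a₁ : ∀ᵐ x ∂m, ∀ᵐ v ∂ν₁, R μ (D.H₁ x v) (sl S x) (sl S (x + D.p₁ v)) :=
    (Measure.ae_ae_comm m₁).2 (Eventually.of_forall h₁)
  have a₂ : ∀ᵐ x ∂m, ∀ᵐ w ∂ν₂, R μ (D.H₂ x w) (sl S x) (sl S (x + D.p₂ w)) :=
    (Measure.ae_ae_comm m₂).2 (Eventually.of_forall h₂)
  -- translations of the base
  have tr : ∀ (a : X) {p : X → Prop}, (∀ᵐ x ∂m, p x) → ∀ᵐ x ∂m, p (x + a) := by
    intro a p h
    have := (measurePreserving_add_left m a).quasiMeasurePreserving.ae h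
    filter_upwards [this] with x hx
    rwa [add_comm]
  have n₁ : MeasurableSet {x | ∀ᵐ v ∂ν₁, R μ (D.H₁ x v) (sl S x) (sl S (x + D.p₁ v))} :=
    measurableSet_ae ν₁ m₁
  have n₂ : MeasurableSet {x | ∀ᵐ w ∂ν₂, R μ (D.H₂ x w) (sl S x) (sl S (x + D.p₂ w))} :=
    measurableSet_ae ν₂ m₂
  have hadd : Measurable fun z : X × (E₁ × E₂) => z.1 + D.Pi z.2 :=
    measurable_fst.add (hPi.comp measurable_snd)
  have b₁ : ∀ᵐ x ∂m, ∀ᵐ e ∂(ν₁.prod ν₂), ∀ᵐ v ∂ν₁, R μ (D.H₁ (x + D.Pi e) v) (sl S (x + D.Pi e))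
      (sl S (x + D.Pi e + D.p₁ v)) :=
    (Measure.ae_ae_comm (p := fun (x : X) (e : E₁ × E₂) => ∀ᵐ v ∂ν₁, R μ (D.H₁ (x + D.Pi e) v)
      (sl S (x + D.Pi e)) (sl S (x + D.Pi e + D.p₁ v))) (hadd n₁)).2
      (Eventually.of_forall fun e => tr (D.Pi e) a₁)
  have b₂ : ∀ᵐ x ∂m, ∀ᵐ e ∂(ν₁.prod ν₂), ∀ᵐ w ∂ν₂, R μ (D.H₂ (x + D.Pi e) w) (sl S (x + D.Pi e))
      (sl S (x + D.Pi e + D.p₂ w)) :=
    (Measure.ae_ae_comm (p := fun (x : X) (e : E₁ × E₂) => ∀ᵐ w ∂ν₂, R μ (D.H₂ (x + D.Pi e) w)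
      (sl S (x + D.Pi e)) (sl S (x + D.Pi e + D.p₂ w))) (hadd n₂)).2
      (Eventually.of_forall fun e => tr (D.Pi e) a₂)
  have hadd' : Measurable fun z : X × E₁ => z.1 + D.p₁ z.2 :=
    measurable_fst.add (hp₁.comp measurable_snd)
  have c₁ : ∀ᵐ x ∂m, ∀ᵐ v ∂ν₁, ∀ᵐ w ∂ν₂, R μ (D.H₂ (x + D.p₁ v) w) (sl S (x + D.p₁ v))
      (sl S (x + D.p₁ v + D.p₂ w)) :=
    (Measure.ae_ae_comm (p := fun (x : X) (v : E₁) => ∀ᵐ w ∂ν₂, R μ (D.H₂ (x + D.p₁ v) w)
      (sl S (x + D.p₁ v)) (sl S (x + D.p₁ v + D.p₂ w))) (hadd' n₂)).2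
      (Eventually.of_forall fun v => tr (D.p₁ v) a₂)
  have d : ∀ᵐ x ∂m, ∀ᵐ e ∂(ν₁.prod ν₂), R μ (D.K x e) (sl S x) (sl S (x + D.Pi e)) := by
    filter_upwards [a₁, c₁] with x hx hx'
    have hme : MeasurableSet {e : E₁ × E₂ | R μ (D.K x e) (sl S x) (sl S (x + D.Pi e))} :=
      measurableSet_R μ hS (hK.comp (measurable_const.prodMk measurable_id)) measurable_const
        (measurable_const.add hPi)
    rw [Measure.ae_prod_iff_ae_ae hme]
    filter_upwards [hx, hx'] with v hv hv'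
    filter_upwards [hv'] with w hw
    have h3 := hv.trans hw
    have h4 : x + D.Pi (v, w) = x + D.p₁ v + D.p₂ w := by
      unfold Pi
      rw [add_assoc]
    rw [h4]
    exact h3
  obtain ⟨x₀, h3, h4, h5⟩ := (d.and (b₁.and b₂)).exists
  exact ⟨x₀, h3, h4, h5⟩

end HolData

end Sat

end PSG
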