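import Pool.Agent.Work.MP_adbfe6_an.Sat

/-!
# MP_adbfe6_an: exactly saturated versions of holonomy invariant sets, second part
-/

open MeasureTheory Filter Topology

set_option linter.unusedSectionVars false

namespace PSG

section Sat

variable {X E₁ E₂ G N : Type*}
  [TopologicalSpace X] [AddCommGroup X] [IsTopologicalAddGroup X] [SecondCountableTopology X]
  [MeasurableSpace X] [BorelSpace X]
  [TopologicalSpace E₁] [AddCommGroup E₁] [IsTopologicalAddGroup E₁] [SecondCountableTopology E₁]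
  [MeasurableSpace E₁] [BorelSpace E₁]
  [TopologicalSpace E₂] [AddCommGroup E₂] [IsTopologicalAddGroup E₂] [SecondCountableTopology E₂]
  [MeasurableSpace E₂] [BorelSpace E₂]
  [TopologicalSpace G] [Group G] [IsTopologicalGroup G] [SecondCountableTopology G] [LocallyCompactSpace G]
  [T2Space G] [MeasurableSpace G] [BorelSpace G]
  [TopologicalSpace N] [CompactSpace N] [T2Space N] [SecondCountableTopology N] [MeasurableSpace N]
  [BorelSpace N] [MulAction G N] [ContinuousSMul G N]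
  (m : Measure X) [IsProbabilityMeasure m] [m.IsAddLeftInvariant]
  (ν₁ : Measure E₁) [SigmaFinite ν₁] [ν₁.IsAddLeftInvariant] [ν₁.IsOpenPosMeasure]
  (ν₂ : Measure E₂) [SigmaFinite ν₂] [ν₂.IsAddLeftInvariant] [ν₂.IsOpenPosMeasure]
  (μ : Measure N) [IsProbabilityMeasure μ] [SMulInvariantMeasure G N μ]

theorem forall_of_ae {Y : Type*} [TopologicalSpace Y] [MeasurableSpace Y] {ν : Measure Y}
    [ν.IsOpenPosMeasure] {p : Y → Prop} (hc : IsClosed {y | p y}) (h : ∀ᵐ y ∂ν, p y) : ∀ y, p y := by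
  have hd : Dense {y | p y} := Measure.dense_of_ae h
  have h1 : {y | p y} = Set.univ := by
    rw [← hc.closure_eq]
    exact hd.closure_eq
  intro y
  have : y ∈ {y | p y} := by rw [h1]; exact Set.mem_univ y
  exact this

namespace HolData

variable (D : HolData X E₁ E₂ G)

theorem ae_translate {p : E₁ × E₂ → Prop} (h : ∀ᵐ e ∂(ν₁.prod ν₂), p e) (a : E₁ × E₂) :
    ∀ᵐ e ∂(ν₁.prod ν₂), p (e + a) := by
  have := (measurePreserving_add_left (ν₁.prod ν₂) a).quasiMeasurePreserving.ae h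
  filter_upwards [this] with e he
  rwa [add_comm]

theorem stab_lattice {S : Set (X × N)} (hS : MeasurableSet S) {x₀ : X}
    (hA : ∀ᵐ e ∂(ν₁.prod ν₂), R μ (D.K x₀ e) (sl S x₀) (sl S (x₀ + D.Pi e)))
    {l : E₁ × E₂} (hl : D.Pi l = 0) (e : E₁ × E₂) :
    (D.K x₀ (e + l))⁻¹ * D.K x₀ e ∈ Stab G μ (sl S x₀) := by
  have hcl := isClosed_Stab (G := G) μ (measurableSet_sl hS x₀)
  have hK : Continuous fun e => D.K x₀ e := D.continuous_K.comp (continuous_const.prodMk continuous_id)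
  revert e
  refine forall_of_ae (ν := ν₁.prod ν₂) ?_ ?_
  · exact hcl.preimage (((hK.comp (continuous_id.add continuous_const)).inv).mul hK)
  · filter_upwards [hA, ae_translate ν₁ ν₂ hA l] with e h1 h2
    rw [Pi_add, hl, add_zero] at h2
    exact h1.trans h2.symm

theorem stab_one {S : Set (X × N)} (hS : MeasurableSet S) {x₀ : X}
    (hA : ∀ᵐ e ∂(ν₁.prod ν₂), R μ (D.K x₀ e) (sl S x₀) (sl S (x₀ + D.Pi e)))
    (hB : ∀ᵐ e ∂(ν₁.prod ν₂), ∀ᵐ v ∂ν₁, R μ (D.H₁ (x₀ + D.Pi e) v) (sl S (x₀ + D.Pi e))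
        (sl S (x₀ + D.Pi e + D.p₁ v)))
    (e : E₁ × E₂) (v : E₁) :
    (D.K x₀ (e + (v, 0)))⁻¹ * (D.H₁ (x₀ + D.Pi e) v * D.K x₀ e) ∈ Stab G μ (sl S x₀) := by
  have hcl := isClosed_Stab (G := G) μ (measurableSet_sl hS x₀)
  have hK : Continuous fun e => D.K x₀ e := D.continuous_K.comp (continuous_const.prodMk continuous_id)
  have hadd : Continuous fun z : (E₁ × E₂) × E₁ => z.1 + (z.2, (0 : E₂)) :=
    continuous_fst.add (continuous_snd.prodMk continuous_const)
  have hcont : Continuous fun z : (E₁ × E₂) × E₁ =>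
      (D.K x₀ (z.1 + (z.2, 0)))⁻¹ * (D.H₁ (x₀ + D.Pi z.1) z.2 * D.K x₀ z.1) := by
    refine ((hK.comp hadd).inv).mul (Continuous.mul ?_ (hK.comp continuous_fst))
    exact D.cH₁.comp ((continuous_const.add (D.continuous_Pi.comp continuous_fst)).prodMk continuous_snd)
  have hclosed := hcl.preimage hcont
  have h1 : ∀ᵐ e ∂(ν₁.prod ν₂), ∀ᵐ v ∂ν₁, R μ (D.K x₀ (e + (v, 0))) (sl S x₀)
      (sl S (x₀ + D.Pi (e + (v, 0)))) := by
    refine (Measure.ae_ae_comm (p := fun (e : E₁ × E₂) (v : E₁) => R μ (D.K x₀ (e + (v, 0))) (sl S x₀)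
      (sl S (x₀ + D.Pi (e + (v, 0))))) ?_).2 (Eventually.of_forall fun v => ae_translate ν₁ ν₂ hA (v, 0))
    exact measurableSet_R μ hS (hK.comp hadd).measurable measurable_const
      (continuous_const.add (D.continuous_Pi.comp hadd)).measurable
  have h2 : ∀ᵐ z ∂((ν₁.prod ν₂).prod ν₁),
      (D.K x₀ (z.1 + (z.2, 0)))⁻¹ * (D.H₁ (x₀ + D.Pi z.1) z.2 * D.K x₀ z.1) ∈ Stab G μ (sl S x₀) := by
    refine (Measure.ae_prod_iff_ae_ae hclosed.measurableSet).2 ?_
    filter_upwards [hA, hB, h1] with e ha hb hc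
    filter_upwards [hb, hc] with v hb' hc'
    have e1 : x₀ + D.Pi (e + (v, 0)) = x₀ + D.Pi e + D.p₁ v := by
      rw [Pi_add]
      unfold Pi
      simp only [map_zero, add_zero]
      abel
    rw [e1] at hc'
    exact (ha.trans hb').trans hc'.symm
  exact forall_of_ae hclosed h2 (e, v)

theorem stab_two {S : Set (X × N)} (hS : MeasurableSet S) {x₀ : X}
    (hA : ∀ᵐ e ∂(ν₁.prod ν₂), R μ (D.K x₀ e) (sl S x₀) (sl S (x₀ + D.Pi e)))
    (hB : ∀ᵐ e ∂(ν₁.prod ν₂), ∀ᵐ w ∂ν₂, R μ (D.H₂ (x₀ + D.Pi e) w) (sl S (x₀ + D.Pi e))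
        (sl S (x₀ + D.Pi e + D.p₂ w)))
    (e : E₁ × E₂) (w : E₂) :
    (D.K x₀ (e + (0, w)))⁻¹ * (D.H₂ (x₀ + D.Pi e) w * D.K x₀ e) ∈ Stab G μ (sl S x₀) := by
  have hcl := isClosed_Stab (G := G) μ (measurableSet_sl hS x₀)
  have hK : Continuous fun e => D.K x₀ e := D.continuous_K.comp (continuous_const.prodMk continuous_id)
  have hadd : Continuous fun z : (E₁ × E₂) × E₂ => z.1 + ((0 : E₁), z.2) :=
    continuous_fst.add (continuous_const.prodMk continuous_snd)
  have hcont : Continuous fun z : (E₁ × E₂) × E₂ =>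
      (D.K x₀ (z.1 + (0, z.2)))⁻¹ * (D.H₂ (x₀ + D.Pi z.1) z.2 * D.K x₀ z.1) := by
    refine ((hK.comp hadd).inv).mul (Continuous.mul ?_ (hK.comp continuous_fst))
    exact D.cH₂.comp ((continuous_const.add (D.continuous_Pi.comp continuous_fst)).prodMk continuous_snd)
  have hclosed := hcl.preimage hcont
  have h1 : ∀ᵐ e ∂(ν₁.prod ν₂), ∀ᵐ w ∂ν₂, R μ (D.K x₀ (e + (0, w))) (sl S x₀)
      (sl S (x₀ + D.Pi (e + (0, w)))) := by
    refine (Measure.ae_ae_comm (p := fun (e : E₁ × E₂) (w : E₂) => R μ (D.K x₀ (e + (0, w))) (sl S x₀)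
      (sl S (x₀ + D.Pi (e + (0, w))))) ?_).2 (Eventually.of_forall fun w => ae_translate ν₁ ν₂ hA (0, w))
    exact measurableSet_R μ hS (hK.comp hadd).measurable measurable_const
      (continuous_const.add (D.continuous_Pi.comp hadd)).measurable
  have h2 : ∀ᵐ z ∂((ν₁.prod ν₂).prod ν₂),
      (D.K x₀ (z.1 + (0, z.2)))⁻¹ * (D.H₂ (x₀ + D.Pi z.1) z.2 * D.K x₀ z.1) ∈ Stab G μ (sl S x₀) := by
    refine (Measure.ae_prod_iff_ae_ae hclosed.measurableSet).2 ?_
    filter_upwards [hA, hB, h1] with e ha hb hc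
    filter_upwards [hb, hc] with w hb' hc'
    have e1 : x₀ + D.Pi (e + (0, w)) = x₀ + D.Pi e + D.p₂ w := by
      rw [Pi_add]
      unfold Pi
      simp only [map_zero, zero_add]
      abel
    rw [e1] at hc'
    exact (ha.trans hb').trans hc'.symm
  exact forall_of_ae hclosed h2 (e, w)

/-- a property which holds at almost every `(v, w)` holds almost everywhere on `X` -/
theorem ae_of_ae_Pi (hsurj : Function.Surjective D.Pi) {p : X → Prop} (hp : MeasurableSet {x | p x})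
    (h : ∀ᵐ e ∂(ν₁.prod ν₂), p (D.Pi e)) : ∀ᵐ x ∂m, p x := by
  have h1 : ∀ x : X, ∀ᵐ e ∂(ν₁.prod ν₂), p (x + D.Pi e) := by
    intro x
    obtain ⟨a, rfl⟩ := hsurj x
    filter_upwards [ae_translate ν₁ ν₂ h a] with e he
    rw [Pi_add, add_comm] at he
    exact he
  have hm : MeasurableSet {z : X × (E₁ × E₂) | p (z.1 + D.Pi z.2)} :=
    (measurable_fst.add (D.continuous_Pi.measurable.comp measurable_snd)) hp
  have h2 := (Measure.ae_ae_comm (μ := m) (ν := ν₁.prod ν₂)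
    (p := fun (x : X) (e : E₁ × E₂) => p (x + D.Pi e)) hm).1 (Eventually.of_forall h1)
  obtain ⟨e, he⟩ := h2.exists
  have h3 := (measurePreserving_add_left m (-D.Pi e)).quasiMeasurePreserving.ae he
  filter_upwards [h3] with x hx
  have e1 : -D.Pi e + x + D.Pi e = x := by abel
  rwa [e1] at hx

include ν₁ ν₂ in
/-- **Main lemma.** A measurable set which is mod 0 invariant under all holonomies has an exactly saturated
version (with the same measure). -/
theorem exists_saturated (σ : X → E₁ × E₂) (hσ : Measurable σ) (hσ' : ∀ x, D.Pi (σ x) = x)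
    {S : Set (X × N)} (hS : MeasurableSet S)
    (h₁ : ∀ v : E₁, ∀ᵐ x ∂m, R μ (D.H₁ x v) (sl S x) (sl S (x + D.p₁ v)))
    (h₂ : ∀ w : E₂, ∀ᵐ x ∂m, R μ (D.H₂ x w) (sl S x) (sl S (x + D.p₂ w))) :
    ∃ S' : Set (X × N), MeasurableSet S' ∧ (m.prod μ) S' = (m.prod μ) S ∧
      ∀ p q : X × N, D.Step p q → (p ∈ S' ↔ q ∈ S') := by
  obtain ⟨x₀, hA, hB, hC⟩ := D.generic m ν₁ ν₂ μ hS h₁ h₂
  set S₀ := sl S x₀ with hS₀
  have hS₀m : MeasurableSet S₀ := measurableSet_sl hS x₀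
  obtain ⟨T, hTm, hTμ, hT⟩ := exists_exact (G := G) μ hS₀m
  have hK : Continuous fun e => D.K x₀ e := D.continuous_K.comp (continuous_const.prodMk continuous_id)
  set κ : X → G := fun x => D.K x₀ (σ (x - x₀)) with hκ
  have hκm : Measurable κ := hK.measurable.comp (hσ.comp (measurable_id.sub_const x₀))
  have hmap : Measurable fun z : X × N => (κ z.1)⁻¹ • z.2 :=
    ((hκm.comp measurable_fst).inv).smul measurable_snd
  refine ⟨{z | (κ z.1)⁻¹ • z.2 ∈ T}, hmap hTm, ?_, ?_⟩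
  · -- measure
    have hr : ∀ᵐ x ∂m, μ (sl S (x₀ + x)) = μ S₀ := by
      refine D.ae_of_ae_Pi m ν₁ ν₂ (fun x => ⟨σ x, hσ' x⟩) ?_ ?_
      · have h3 : Measurable fun x => μ (sl S x) := measurable_measure_prodMk_left hS
        exact (h3.comp (measurable_const_add x₀)) (measurableSet_singleton (μ S₀))
      · filter_upwards [hA] with e he
        exact he.measure_eq (measurableSet_sl hS _)
    have hr' : ∀ᵐ x ∂m, μ (sl S x) = μ S₀ := by
      have h3 := (measurePreserving_add_left m (-x₀)).quasiMeasurePreserving.ae hr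
      filter_upwards [h3] with x hx
      rwa [add_neg_cancel_left] at hx
    have hm' : MeasurableSet {z : X × N | (κ z.1)⁻¹ • z.2 ∈ T} := hmap hTm
    rw [Measure.prod_apply hS, Measure.prod_apply hm']
    refine lintegral_congr_ae ?_
    filter_upwards [hr'] with x hx
    have h4 : μ (Prod.mk x ⁻¹' {z : X × N | (κ z.1)⁻¹ • z.2 ∈ T}) = μ T :=
      (measurePreserving_smul ((κ x)⁻¹) μ).measure_preimage hTm.nullMeasurableSet
    rw [h4, hTμ]
    exact hx.symm
  · -- saturation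
    have key : ∀ (x x' : X) (h : G) (y : N), (κ x')⁻¹ * (h * κ x) ∈ Stab G μ S₀ →
        ((κ x)⁻¹ • y ∈ T ↔ (κ x')⁻¹ • (h • y) ∈ T) := by
      intro x x' h y hmem
      have h5 := hT _ hmem ((κ x)⁻¹ • y)
      rw [← h5, ← mul_smul, ← mul_smul]
      have e1 : (κ x')⁻¹ * (h * κ x) * (κ x)⁻¹ = (κ x')⁻¹ * h := by group
      rw [e1]
    rintro ⟨x, y⟩ q hq
    rcases hq with ⟨v, rfl⟩ | ⟨w, rfl⟩
    · show (κ x)⁻¹ • y ∈ T ↔ (κ (x + D.p₁ v))⁻¹ • (D.H₁ x v • y) ∈ T
      apply key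
      set e := σ (x - x₀) with he
      have hPe : D.Pi e = x - x₀ := hσ' _
      have h6 := D.stab_one ν₁ ν₂ μ hS hA hB e v
      have e2 : x₀ + D.Pi e = x := by rw [hPe]; abel
      rw [e2] at h6
      set e'' := σ (x + D.p₁ v - x₀) with he''
      have hPe'' : D.Pi e'' = x + D.p₁ v - x₀ := hσ' _
      have hl : D.Pi (e'' - (e + (v, 0))) = 0 := by
        have h7 : D.Pi (e + (v, 0)) = D.Pi e'' := by
          rw [Pi_add, hPe, hPe'']
          unfold Pi
          simp only [map_zero, add_zero]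
          abel
        have h8 : D.Pi (e'' - (e + (v, 0))) + D.Pi (e + (v, 0)) = D.Pi e'' := by
          rw [← Pi_add, sub_add_cancel]
        rw [h7] at h8
        exact add_eq_right.1 h8
      have h9 := D.stab_lattice ν₁ ν₂ μ hS hA hl (e + (v, 0))
      rw [add_sub_cancel] at h9
      have h10 := (Stab G μ (sl S x₀)).mul_mem h9 h6
      have e3 : (D.K x₀ e'')⁻¹ * D.K x₀ (e + (v, 0)) * ((D.K x₀ (e + (v, 0)))⁻¹ *
          (D.H₁ x v * D.K x₀ e)) = (D.K x₀ e'')⁻¹ * (D.H₁ x v * D.K x₀ e) := by group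
      rw [e3] at h10
      exact h10
    · show (κ x)⁻¹ • y ∈ T ↔ (κ (x + D.p₂ w))⁻¹ • (D.H₂ x w • y) ∈ T
      apply key
      set e := σ (x - x₀) with he
      have hPe : D.Pi e = x - x₀ := hσ' _
      have h6 := D.stab_two ν₁ ν₂ μ hS hA hC e w
      have e2 : x₀ + D.Pi e = x := by rw [hPe]; abel
      rw [e2] at h6
      set e'' := σ (x + D.p₂ w - x₀) with he''
      have hPe'' : D.Pi e'' = x + D.p₂ w - x₀ := hσ' _
      have hl : D.Pi (e'' - (e + (0, w))) = 0 := by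
        have h7 : D.Pi (e + (0, w)) = D.Pi e'' := by
          rw [Pi_add, hPe, hPe'']
          unfold Pi
          simp only [map_zero, zero_add]
          abel
        have h8 : D.Pi (e'' - (e + (0, w))) + D.Pi (e + (0, w)) = D.Pi e'' := by
          rw [← Pi_add, sub_add_cancel]
        rw [h7] at h8
        exact add_eq_right.1 h8
      have h9 := D.stab_lattice ν₁ ν₂ μ hS hA hl (e + (0, w))
      rw [add_sub_cancel] at h9
      have h10 := (Stab G μ (sl S x₀)).mul_mem h9 h6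
      have e3 : (D.K x₀ e'')⁻¹ * D.K x₀ (e + (0, w)) * ((D.K x₀ (e + (0, w)))⁻¹ *
          (D.H₂ x w * D.K x₀ e)) = (D.K x₀ e'')⁻¹ * (D.H₂ x w * D.K x₀ e) := by group
      rw [e3] at h10
      exact h10

end HolData

end Sat

end PSG
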