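import Pool.Agent.Work.MP_adbfe6_an.Sat2
import Pool.Agent.Work.MP_adbfe6_an.Hilb

/-!
# MP_adbfe6_an: essentially accessible skew products with locally compact structure group are mixing
-/

open MeasureTheory Filter Topology

set_option linter.unusedSectionVars false

namespace PSG

/-- A skew product `(x, y) ↦ (A x, φ x • y)` with stable and unstable holonomies in the structure group. -/
structure Sys (X E₁ E₂ G : Type*) [TopologicalSpace X] [AddCommGroup X] [TopologicalSpace E₁]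
    [AddCommGroup E₁] [TopologicalSpace E₂] [AddCommGroup E₂] [TopologicalSpace G] [Group G]
    extends HolData X E₁ E₂ G where
  A : X → X
  A' : X → X
  AA' : ∀ x, A (A' x) = x
  A'A : ∀ x, A' (A x) = x
  cA : Continuous A
  cA' : Continuous A'
  φ : X → G
  cφ : Continuous φ
  L₁ : E₁ → E₁
  L₂ : E₂ → E₂
  hL₁ : ∀ v, Tendsto (fun n : ℕ => L₁^[n] v) atTop (𝓝 0)
  hL₂ : ∀ w, Tendsto (fun n : ℕ => L₂^[n] w) atTop (𝓝 0)
  A_p₁ : ∀ x v, A (x + p₁ v) = A x + p₁ (L₁ v)
  A'_p₂ : ∀ x w, A' (x + p₂ w) = A' x + p₂ (L₂ w)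
  H₁_zero : ∀ x, H₁ x 0 = 1
  H₂_zero : ∀ x, H₂ x 0 = 1
  H₁_A : ∀ x v, H₁ (A x) (L₁ v) * φ x = φ (x + p₁ v) * H₁ x v
  H₂_A' : ∀ x w, H₂ (A' x) (L₂ w) * (φ (A' x))⁻¹ = (φ (A' x + p₂ (L₂ w)))⁻¹ * H₂ x w

namespace Sys

variable {X E₁ E₂ G N : Type*}
  [TopologicalSpace X] [AddCommGroup X] [IsTopologicalAddGroup X] [CompactSpace X] [T2Space X]
  [SecondCountableTopology X] [MeasurableSpace X] [BorelSpace X]
  [TopologicalSpace E₁] [AddCommGroup E₁] [IsTopologicalAddGroup E₁] [SecondCountableTopology E₁]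
  [MeasurableSpace E₁] [BorelSpace E₁]
  [TopologicalSpace E₂] [AddCommGroup E₂] [IsTopologicalAddGroup E₂] [SecondCountableTopology E₂]
  [MeasurableSpace E₂] [BorelSpace E₂]
  [TopologicalSpace G] [Group G] [IsTopologicalGroup G] [SecondCountableTopology G] [LocallyCompactSpace G]
  [T2Space G] [MeasurableSpace G] [BorelSpace G]
  [TopologicalSpace N] [CompactSpace N] [T2Space N] [SecondCountableTopology N] [MeasurableSpace N]
  [BorelSpace N] [MulAction G N] [ContinuousSMul G N]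
  (m : Measure X) [IsProbabilityMeasure m] [m.IsAddLeftInvariant]
  (ν₁ : Measure E₁) [SigmaFinite ν₁] [ν₁.IsAddLeftInvariant] [ν₁.IsOpenPosMeasure]
  (ν₂ : Measure E₂) [SigmaFinite ν₂] [ν₂.IsAddLeftInvariant] [ν₂.IsOpenPosMeasure]
  (μ : Measure N) [IsProbabilityMeasure μ] [SMulInvariantMeasure G N μ]
  (D : Sys X E₁ E₂ G)

/-- the skew product -/
def f (z : X × N) : X × N := (D.A z.1, D.φ z.1 • z.2)

/-- its inverse -/
def f' (z : X × N) : X × N := (D.A' z.1, (D.φ (D.A' z.1))⁻¹ • z.2)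

/-- stable and unstable transport -/
def Θ₁ (v : E₁) (z : X × N) : X × N := (z.1 + D.p₁ v, D.H₁ z.1 v • z.2)
def Θ₂ (w : E₂) (z : X × N) : X × N := (z.1 + D.p₂ w, D.H₂ z.1 w • z.2)

theorem f_f' (z : X × N) : D.f (D.f' z) = z := by
  obtain ⟨x, y⟩ := z
  simp only [f, f', D.AA', smul_inv_smul]

theorem f'_f (z : X × N) : D.f' (D.f z) = z := by
  obtain ⟨x, y⟩ := z
  simp only [f, f', D.A'A, inv_smul_smul]

theorem continuous_f : Continuous (D.f : X × N → X × N) :=
  (D.cA.comp continuous_fst).prodMk ((D.cφ.comp continuous_fst).smul continuous_snd)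

theorem continuous_f' : Continuous (D.f' : X × N → X × N) :=
  (D.cA'.comp continuous_fst).prodMk (((D.cφ.comp (D.cA'.comp continuous_fst)).inv).smul continuous_snd)

theorem continuous_Θ₁ : Continuous fun q : E₁ × (X × N) => D.Θ₁ q.1 q.2 := by
  have hx : Continuous fun q : E₁ × (X × N) => q.2.1 := continuous_fst.comp continuous_snd
  have hv : Continuous fun q : E₁ × (X × N) => q.1 := continuous_fst
  exact (hx.add (D.cp₁.comp hv)).prodMk ((D.cH₁.comp (hx.prodMk hv)).smul (continuous_snd.comp continuous_snd))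

theorem continuous_Θ₂ : Continuous fun q : E₂ × (X × N) => D.Θ₂ q.1 q.2 := by
  have hx : Continuous fun q : E₂ × (X × N) => q.2.1 := continuous_fst.comp continuous_snd
  have hv : Continuous fun q : E₂ × (X × N) => q.1 := continuous_fst
  exact (hx.add (D.cp₂.comp hv)).prodMk ((D.cH₂.comp (hx.prodMk hv)).smul (continuous_snd.comp continuous_snd))

theorem f_Θ₁ (v : E₁) (z : X × N) : D.f (D.Θ₁ v z) = D.Θ₁ (D.L₁ v) (D.f z) := by
  obtain ⟨x, y⟩ := z
  simp only [f, Θ₁, D.A_p₁, smul_smul, D.H₁_A]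

theorem f'_Θ₂ (w : E₂) (z : X × N) : D.f' (D.Θ₂ w z) = D.Θ₂ (D.L₂ w) (D.f' z) := by
  obtain ⟨x, y⟩ := z
  simp only [f', Θ₂, D.A'_p₂, smul_smul, D.H₂_A']

theorem f_iter (v : E₁) (n : ℕ) (z : X × N) :
    (D.f)^[n] (D.Θ₁ v z) = D.Θ₁ (D.L₁^[n] v) ((D.f)^[n] z) := by
  induction n with
  | zero => rfl
  | succ n ih => rw [Function.iterate_succ_apply', ih, f_Θ₁, Function.iterate_succ_apply',
      Function.iterate_succ_apply']

theorem f'_iter (w : E₂) (n : ℕ) (z : X × N) :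
    (D.f')^[n] (D.Θ₂ w z) = D.Θ₂ (D.L₂^[n] w) ((D.f')^[n] z) := by
  induction n with
  | zero => rfl
  | succ n ih => rw [Function.iterate_succ_apply', ih, f'_Θ₂, Function.iterate_succ_apply',
      Function.iterate_succ_apply']

/-! ### measure preservation -/

theorem mp_skew {a : X → X} {g : X → G} (ha : MeasurePreserving a m m) (hg : Measurable g) :
    MeasurePreserving (fun z : X × N => (a z.1, g z.1 • z.2)) (m.prod μ) (m.prod μ) :=
  MeasurePreserving.skew_product (g := fun x y => g x • y) ha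
    ((hg.comp measurable_fst).smul measurable_snd)
    (Eventually.of_forall fun x => (measurePreserving_smul (g x) μ).map_eq)

theorem mp_Θ₁ (v : E₁) : MeasurePreserving (D.Θ₁ v : X × N → X × N) (m.prod μ) (m.prod μ) := by
  have h1 : MeasurePreserving (fun x : X => x + D.p₁ v) m m := by
    have := measurePreserving_add_left m (D.p₁ v)
    simpa only [add_comm] using this
  exact mp_skew m μ (g := fun x => D.H₁ x v) h1
    (D.cH₁.comp (continuous_id.prodMk continuous_const)).measurable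

theorem mp_Θ₂ (w : E₂) : MeasurePreserving (D.Θ₂ w : X × N → X × N) (m.prod μ) (m.prod μ) := by
  have h1 : MeasurePreserving (fun x : X => x + D.p₂ w) m m := by
    have := measurePreserving_add_left m (D.p₂ w)
    simpa only [add_comm] using this
  exact mp_skew m μ (g := fun x => D.H₂ x w) h1
    (D.cH₂.comp (continuous_id.prodMk continuous_const)).measurable

theorem mp_f (hA : MeasurePreserving D.A m m) :
    MeasurePreserving (D.f : X × N → X × N) (m.prod μ) (m.prod μ) :=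
  mp_skew m μ hA D.cφ.measurable

theorem mp_f' (hA : MeasurePreserving D.A m m) :
    MeasurePreserving (D.f' : X × N → X × N) (m.prod μ) (m.prod μ) := by
  refine ⟨D.continuous_f'.measurable, ?_⟩
  have h1 := (mp_f (N := N) m μ D hA).map_eq
  conv_lhs => rw [← h1]
  rw [Measure.map_map D.continuous_f'.measurable D.continuous_f.measurable]
  have h2 : (D.f' ∘ D.f : X × N → X × N) = id := funext fun z => D.f'_f z
  rw [h2, Measure.map_id]

/-- essential accessibility -/
def EssAcc : Prop := ∀ A B : Set (X × N), MeasurableSet A → MeasurableSet B →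
  0 < (m.prod μ) A → 0 < (m.prod μ) B →
  ∃ a ∈ A, ∃ b ∈ B, Relation.ReflTransGen (D.toHolData.Step) a b

/-- the abstract constancy statement -/
theorem zero_or_one (σ : X → E₁ × E₂) (hσ : Measurable σ) (hσ' : ∀ x, D.toHolData.Pi (σ x) = x)
    (ν₁ : Measure E₁) [SigmaFinite ν₁] [ν₁.IsAddLeftInvariant] [ν₁.IsOpenPosMeasure]
    (ν₂ : Measure E₂) [SigmaFinite ν₂] [ν₂.IsAddLeftInvariant] [ν₂.IsOpenPosMeasure]
    (hacc : D.EssAcc m μ) {S : Set (X × N)} (hS : MeasurableSet S)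
    (h₁ : ∀ v : E₁, ∀ᵐ z ∂(m.prod μ), (D.Θ₁ v z ∈ S ↔ z ∈ S))
    (h₂ : ∀ w : E₂, ∀ᵐ z ∂(m.prod μ), (D.Θ₂ w z ∈ S ↔ z ∈ S)) :
    (m.prod μ) S = 0 ∨ (m.prod μ) Sᶜ = 0 := by
  obtain ⟨S', hS'm, hS'μ, hS'⟩ := D.toHolData.exists_saturated m ν₁ ν₂ μ σ hσ hσ' hS
    (fun v => Measure.ae_ae_of_ae_prod (h₁ v)) (fun w => Measure.ae_ae_of_ae_prod (h₂ w))
  have hsat : ∀ a b : X × N, Relation.ReflTransGen (D.toHolData.Step) a b → (a ∈ S' ↔ b ∈ S') := by
    intro a b h
    induction h with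
    | refl => exact Iff.rfl
    | tail _ hbc ih => exact ih.trans (hS' _ _ hbc)
  by_contra hcon
  push Not at hcon
  have h3 : 0 < (m.prod μ) S' := by
    rw [hS'μ]
    exact pos_iff_ne_zero.2 hcon.1
  have h4 : 0 < (m.prod μ) S'ᶜ := by
    rw [prob_compl_eq_one_sub hS'm, hS'μ, ← prob_compl_eq_one_sub hS]
    exact pos_iff_ne_zero.2 hcon.2
  obtain ⟨a, ha, b, hb, hab⟩ := hacc S' S'ᶜ hS'm hS'm.compl h3 h4
  exact hb ((hsat a b hab).1 ha)

end Sys

end PSG
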