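import Pool.Agent.Work.MP_adbfe6_an.Bd.B03

/-!
# MP_adbfe6_an: the torus as base
-/

open MeasureTheory Filter Topology

namespace PSG

/-- the torus `(ℝ/ℤ)^d` -/
abbrev Tor (d : ℕ) := Fin d → UnitAddCircle

/-- the endomorphism of the torus given by an integer matrix -/
def torMap {d : ℕ} (M : Matrix (Fin d) (Fin d) ℤ) : Tor d →+ Tor d where
  toFun x i := ∑ j, M i j • x j
  map_zero' := by
    ext i
    simp
  map_add' x y := by
    ext i
    simp [smul_add, Finset.sum_add_distrib]

/-- its linear lift to `ℝ^d` -/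
noncomputable def linMap {d : ℕ} (M : Matrix (Fin d) (Fin d) ℤ) : (Fin d → ℝ) →ₗ[ℝ] (Fin d → ℝ) :=
  (M.map (fun k : ℤ => (k : ℝ))).mulVecLin

/-- the projection `ℝ^d → (ℝ/ℤ)^d` -/
def torPr (d : ℕ) : (Fin d → ℝ) →+ Tor d where
  toFun v i := (v i : UnitAddCircle)
  map_zero' := by
    ext i
    simp
  map_add' x y := by
    ext i
    simp

instance instProbCircle : IsProbabilityMeasure (volume : Measure UnitAddCircle) :=
  ⟨by rw [UnitAddCircle.measure_univ]⟩

variable {d : ℕ} (M M' : Matrix (Fin d) (Fin d) ℤ)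

theorem continuous_torPr : Continuous (torPr d) :=
  continuous_pi fun i => (AddCircle.continuous_mk' (1 : ℝ)).comp (continuous_apply i)

theorem continuous_torMap : Continuous (torMap M) := by
  refine continuous_pi fun i => ?_
  show Continuous fun x : Tor d => ∑ j, M i j • x j
  exact continuous_finsetSum _ fun j _ => (continuous_apply j).zsmul (M i j)

theorem torMap_torPr (v : Fin d → ℝ) : torMap M (torPr d v) = torPr d (linMap M v) := by
  ext i
  show ∑ j, M i j • ((v j : ℝ) : UnitAddCircle) = (((M.map (fun k : ℤ => (k : ℝ))).mulVec v i : ℝ) : UnitAddCircle)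
  rw [Matrix.mulVec, dotProduct]
  have h : ((∑ j, (M.map (fun k : ℤ => (k : ℝ))) i j * v j : ℝ) : UnitAddCircle) =
      ∑ j, (((M.map (fun k : ℤ => (k : ℝ))) i j * v j : ℝ) : UnitAddCircle) :=
    map_sum (QuotientAddGroup.mk' (AddSubgroup.zmultiples (1 : ℝ))) _ _
  rw [h]
  refine Finset.sum_congr rfl fun j _ => ?_
  rw [Matrix.map_apply, ← AddCircle.coe_zsmul, zsmul_eq_mul]

theorem torMap_mul (x : Tor d) : torMap (M * M') x = torMap M (torMap M' x) := by
  ext i
  show ∑ j, (M * M') i j • x j = ∑ k, M i k • ∑ j, M' k j • x j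
  simp only [Matrix.mul_apply, Finset.sum_smul, Finset.smul_sum, mul_smul]
  exact Finset.sum_comm

theorem torMap_one (x : Tor d) : torMap (1 : Matrix (Fin d) (Fin d) ℤ) x = x := by
  ext i
  show ∑ j, (1 : Matrix (Fin d) (Fin d) ℤ) i j • x j = x i
  rw [Finset.sum_eq_single i]
  · simp
  · intro j _ hj
    rw [Matrix.one_apply_ne hj.symm, zero_smul]
  · simp

/-- the stable subspace -/
noncomputable def stab : Submodule ℝ (Fin d → ℝ) where
  carrier := {v | Tendsto (fun n : ℕ => (linMap M)^[n] v) atTop (𝓝 0)}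
  add_mem' := by
    intro v w hv hw
    have := Tendsto.add hv hw
    rw [add_zero] at this
    refine this.congr fun n => ?_
    exact (iterate_map_add (linMap M) n v w).symm
  zero_mem' := by
    refine tendsto_const_nhds.congr fun n => ?_
    exact (iterate_map_zero (linMap M) n).symm
  smul_mem' := by
    intro c v hv
    have := Tendsto.const_smul hv c
    rw [smul_zero] at this
    refine this.congr fun n => ?_
    have h1 : (linMap M)^[n] (c • v) = c • (linMap M)^[n] v := by
      rw [← Module.End.pow_apply, ← Module.End.pow_apply, map_smul]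
    exact h1.symm

theorem mem_stab {v : Fin d → ℝ} : v ∈ stab M ↔ Tendsto (fun n : ℕ => (linMap M)^[n] v) atTop (𝓝 0) :=
  Iff.rfl

theorem linMap_mem_stab {v : Fin d → ℝ} (hv : v ∈ stab M) : linMap M v ∈ stab M := by
  rw [mem_stab] at hv ⊢
  rw [← tendsto_add_atTop_iff_nat 1] at hv
  refine hv.congr fun n => ?_
  rw [Function.iterate_succ_apply]

/-- the restriction to the stable subspace -/
noncomputable def stabMap (v : stab M) : stab M := ⟨linMap M v, linMap_mem_stab M v.2⟩

theorem stabMap_iter (v : stab M) (n : ℕ) : (((stabMap M)^[n] v : stab M) : Fin d → ℝ) = (linMap M)^[n] v := by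
  induction n with
  | zero => rfl
  | succ n ih =>
    rw [Function.iterate_succ_apply', Function.iterate_succ_apply', ← ih]
    rfl

theorem tendsto_stabMap (v : stab M) : Tendsto (fun n : ℕ => (stabMap M)^[n] v) atTop (𝓝 0) := by
  rw [tendsto_subtype_rng]
  refine (show Tendsto (fun n : ℕ => (linMap M)^[n] (v : Fin d → ℝ)) atTop (𝓝 0) from v.2).congr fun n => ?_
  exact (stabMap_iter M v n).symm

/-- the integer matrix `M` with inverse `M'` has no central direction:
`ℝ^d` is the sum of the stable subspaces of `M` and of `M'` -/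
def Hyp : Prop := M * M' = 1 ∧ stab M ⊔ stab M' = ⊤

/-- cocycle generated by `φ` over `A` -/
def cyc {X G : Type*} [Group G] (A : X → X) (φ : X → G) : ℕ → X → G
  | 0, _ => 1
  | n + 1, x => cyc A φ n (A x) * φ x

/-- the projection of the stable space to the torus -/
noncomputable def stabPr : stab M →+ Tor d := (torPr d).comp (stab M).subtype.toAddMonoidHom

theorem continuous_stabPr : Continuous (stabPr M) := continuous_torPr.comp continuous_subtype_val

theorem torMap_stabPr (x : Tor d) (v : stab M) :
    torMap M (x + stabPr M v) = torMap M x + stabPr M (stabMap M v) := by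
  rw [map_add]
  congr 1
  exact torMap_torPr M v

/-- a measurable lift of the torus -/
theorem exists_lift : ∃ r : Tor d → (Fin d → ℝ), Measurable r ∧ ∀ x, torPr d (r x) = x := by
  refine ⟨fun x i => (AddCircle.measurableEquivIco (1 : ℝ) 0 (x i) : ℝ), ?_, ?_⟩
  · refine measurable_pi_lambda _ fun i => ?_
    exact measurable_subtype_coe.comp ((AddCircle.measurableEquivIco (1 : ℝ) 0).measurable.comp (measurable_pi_apply i))
  · intro x
    ext i
    exact (AddCircle.equivIco (1 : ℝ) 0).symm_apply_apply (x i)

theorem exists_section (h : stab M ⊔ stab M' = ⊤) :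
    ∃ σ : Tor d → stab M × stab M', Measurable σ ∧ ∀ x, stabPr M (σ x).1 + stabPr M' (σ x).2 = x := by
  obtain ⟨r, hr, hr'⟩ := exists_lift (d := d)
  let S : (stab M × stab M') →ₗ[ℝ] (Fin d → ℝ) := (stab M).subtype.coprod (stab M').subtype
  have hS : Function.Surjective S := by
    rw [← LinearMap.range_eq_top, LinearMap.range_coprod, Submodule.range_subtype, Submodule.range_subtype]
    exact h
  obtain ⟨Q, hQ⟩ := LinearMap.exists_rightInverse_of_surjective S (LinearMap.range_eq_top.2 hS)
  refine ⟨fun x => Q (r x), (LinearMap.continuous_of_finiteDimensional Q).measurable.comp hr, fun x => ?_⟩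
  have h1 : S (Q (r x)) = r x := LinearMap.congr_fun hQ (r x)
  have h2 : ((Q (r x)).1 : Fin d → ℝ) + ((Q (r x)).2 : Fin d → ℝ) = r x := h1
  show torPr d ((Q (r x)).1 : Fin d → ℝ) + torPr d ((Q (r x)).2 : Fin d → ℝ) = x
  rw [← map_add, h2, hr']

theorem mp_torMap (h : M * M' = 1) : MeasurePreserving (torMap M) (volume : Measure (Tor d)) volume := by
  refine AddMonoidHom.measurePreserving (continuous_torMap M) ?_ ?_
  · intro x
    refine ⟨torMap M' x, ?_⟩
    rw [← torMap_mul, h, torMap_one]
  · rfl

end PSG
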