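import Pool.Agent.Work.MP_adbfe6_an.Torus

/-!
# MP_adbfe6_an: skew products over hyperbolic toral automorphisms
-/

open MeasureTheory Filter Topology

namespace PSG

section Hol

variable {X E G : Type*} [TopologicalSpace X] [AddCommGroup X] [TopologicalSpace E] [AddCommGroup E]
  [TopologicalSpace G] [Group G]

/-- `H` is the holonomy of the cocycle `φ` over `A` along the leaves `x + p(E)`: the limit of
`φⁿ(x + p v)⁻¹ φⁿ(x)`, and it is continuous -/
def IsHol (A : X → X) (φ : X → G) (p : E → X) (H : X → E → G) : Prop :=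
  (Continuous fun z : X × E => H z.1 z.2) ∧
    ∀ x v, Tendsto (fun n : ℕ => (cyc A φ n (x + p v))⁻¹ * cyc A φ n x) atTop (𝓝 (H x v))

variable [IsTopologicalGroup G] [T2Space G]

theorem IsHol.zero {A : X → X} {φ : X → G} {p : E →+ X} {H : X → E → G} (h : IsHol A φ p H) (x : X) :
    H x 0 = 1 := by
  refine tendsto_nhds_unique (h.2 x 0) ?_
  refine tendsto_const_nhds.congr fun n => ?_
  rw [map_zero, add_zero, inv_mul_cancel]

theorem IsHol.map {A : X → X} {φ : X → G} {p : E →+ X} {H : X → E → G} {L : E → E} (h : IsHol A φ p H)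
    (hA : ∀ x v, A (x + p v) = A x + p (L v)) (x : X) (v : E) :
    H (A x) (L v) * φ x = φ (x + p v) * H x v := by
  have h1 := (h.2 (A x) (L v)).mul_const (φ x)
  have h2 := ((tendsto_add_atTop_iff_nat 1).2 (h.2 x v)).const_mul (φ (x + p v))
  refine tendsto_nhds_unique h1 (h2.congr fun n => ?_)
  simp only [cyc, hA]
  group

end Hol

variable {d : ℕ} {G N : Type*}
  [TopologicalSpace G] [Group G] [IsTopologicalGroup G] [SecondCountableTopology G] [LocallyCompactSpace G]
  [T2Space G]
  [TopologicalSpace N] [CompactSpace N] [T2Space N] [SecondCountableTopology N] [MeasurableSpace N]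
  [BorelSpace N] [MulAction G N] [ContinuousSMul G N]

/-- the skew product -/
def skew {X G N : Type*} [Group G] [MulAction G N] (A : X → X) (φ : X → G) (z : X × N) : X × N :=
  (A z.1, φ z.1 • z.2)

/-- the point `x + v` of the torus, `v` in the stable space -/
noncomputable def shft (M : Matrix (Fin d) (Fin d) ℤ) (x : Tor d) (v : stab M) : Tor d :=
  x + torPr d v

/-- `H` is the stable holonomy of the cocycle `φ` over `M`: the limit of `φⁿ(x + v)⁻¹ φⁿ(x)`,
and it is continuous -/
def IsTorHol (M : Matrix (Fin d) (Fin d) ℤ) (φ : Tor d → G) (H : Tor d → stab M → G) : Prop :=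
  (Continuous fun z : Tor d × stab M => H z.1 z.2) ∧
    ∀ x v, Tendsto (fun n : ℕ => (cyc (torMap M) φ n (shft M x v))⁻¹ * cyc (torMap M) φ n x) atTop (𝓝 (H x v))

/-- holonomy transport of `p = (x, y)` along `v`: the point `(x + v, H x v • y)` -/
noncomputable def transp (M : Matrix (Fin d) (Fin d) ℤ) (H : Tor d → stab M → G) (p : Tor d × N) (v : stab M) :
    Tor d × N :=
  (shft M p.1 v, H p.1 v • p.2)

/-- `q` lies on the stable or on the unstable leaf of `p` -/
def SuStep (M M' : Matrix (Fin d) (Fin d) ℤ) (H₁ : Tor d → stab M → G) (H₂ : Tor d → stab M' → G)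
    (p q : Tor d × N) : Prop :=
  (∃ v : stab M, q = transp M H₁ p v) ∨ (∃ w : stab M', q = transp M' H₂ p w)

/-- essential accessibility -/
def EssAccessible (M M' : Matrix (Fin d) (Fin d) ℤ) (H₁ : Tor d → stab M → G) (H₂ : Tor d → stab M' → G)
    (ρ : Measure (Tor d × N)) : Prop :=
  ∀ S T : Set (Tor d × N), MeasurableSet S → MeasurableSet T → 0 < ρ S → 0 < ρ T →
    ∃ p ∈ S, ∃ q ∈ T, Relation.ReflTransGen (SuStep M M' H₁ H₂) p q

/-- mixing -/
def Mixing {Z : Type*} [MeasurableSpace Z] (f : Z → Z) (ρ : Measure Z) : Prop :=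
  MeasurePreserving f ρ ρ ∧ ∀ S T : Set Z, MeasurableSet S → MeasurableSet T →
    Tendsto (fun n : ℕ => ρ.real (S ∩ f^[n] ⁻¹' T)) atTop (𝓝 (ρ.real S * ρ.real T))

/-- the data for the abstract theorem -/
noncomputable def torSys {M M' : Matrix (Fin d) (Fin d) ℤ} (h : M * M' = 1) {φ : Tor d → G} (cφ : Continuous φ)
    {H₁ : Tor d → stab M → G} {H₂ : Tor d → stab M' → G}
    (h₁ : IsHol (torMap M) φ (stabPr M) H₁)
    (h₂ : IsHol (torMap M') (fun x => (φ (torMap M' x))⁻¹) (stabPr M') H₂) :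
    Sys (Tor d) (stab M) (stab M') G where
  p₁ := stabPr M
  p₂ := stabPr M'
  cp₁ := continuous_stabPr M
  cp₂ := continuous_stabPr M'
  H₁ := H₁
  H₂ := H₂
  cH₁ := h₁.1
  cH₂ := h₂.1
  A := torMap M
  A' := torMap M'
  AA' := fun x => by rw [← torMap_mul, h, torMap_one]
  A'A := fun x => by rw [← torMap_mul, mul_eq_one_comm.1 h, torMap_one]
  cA := continuous_torMap M
  cA' := continuous_torMap M'
  φ := φ
  cφ := cφ
  L₁ := stabMap M
  L₂ := stabMap M'
  hL₁ := tendsto_stabMap M
  hL₂ := tendsto_stabMap M'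
  A_p₁ := torMap_stabPr M
  A'_p₂ := torMap_stabPr M'
  H₁_zero := h₁.zero
  H₂_zero := h₂.zero
  H₁_A := h₁.map (torMap_stabPr M)
  H₂_A' := fun x w => by
    have := h₂.map (torMap_stabPr M') x w
    rw [this, torMap_stabPr]

/-- **general theorem over the torus** -/
theorem torus_mixing {M M' : Matrix (Fin d) (Fin d) ℤ} (h : Hyp M M') {φ : Tor d → G} (cφ : Continuous φ)
    {H₁ : Tor d → stab M → G} {H₂ : Tor d → stab M' → G}
    (h₁ : IsHol (torMap M) φ (stabPr M) H₁)
    (h₂ : IsHol (torMap M') (fun x => (φ (torMap M' x))⁻¹) (stabPr M') H₂)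
    (μ : Measure N) [IsProbabilityMeasure μ] [SMulInvariantMeasure G N μ]
    (hacc : EssAccessible M M' H₁ H₂ ((volume : Measure (Tor d)).prod μ)) :
    Mixing (skew (torMap M) φ) ((volume : Measure (Tor d)).prod μ) := by
  borelize G
  let D := torSys h.1 cφ h₁ h₂
  obtain ⟨σ, hσ, hσ'⟩ := exists_section M M' h.2
  have hacc' : D.EssAcc (volume : Measure (Tor d)) μ := hacc
  refine ⟨D.mp_f volume μ (mp_torMap M M' h.1), fun S T hS hT => ?_⟩
  exact D.mixing (volume : Measure (Tor d)) μ σ hσ hσ' (Measure.addHaar) (Measure.addHaar)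
    (mp_torMap M M' h.1) hacc' hS hT

end PSG
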